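import Pool.Agent.HRG.Stmts

/-!
# Module BAS of squad HRG (MP_21018d_co)
-/

namespace Pool.HRG

namespace BAS_

lemma bdry_eq {V : Type} (X : SimpleGraph V) (S : Set V) :
    bdry X S = (fun p : V × V => s(p.1, p.2)) '' pairs X S := by
  ext p
  constructor
  · rintro ⟨x, y, hx, hy, h, rfl⟩
    exact ⟨(x, y), ⟨hx, hy, h⟩, rfl⟩
  · rintro ⟨⟨x, y⟩, ⟨hx, hy, h⟩, rfl⟩
    exact ⟨x, y, hx, hy, h, rfl⟩

lemma injOn {V : Type} (X : SimpleGraph V) (S : Set V) :
    Set.InjOn (fun p : V × V => s(p.1, p.2)) (pairs X S) := by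
  rintro ⟨x, y⟩ ⟨hx, hy, _⟩ ⟨x', y'⟩ ⟨hx', hy', _⟩ h
  simp only [Sym2.eq_iff] at h
  simp only at hx hy hx' hy'
  rcases h with ⟨h1, h2⟩ | ⟨h1, h2⟩
  · rw [h1, h2]
  · exact absurd (h1 ▸ hx) hy'

lemma bdry_compl {V : Type} (X : SimpleGraph V) (S : Set V) : bdry X Sᶜ = bdry X S := by
  ext p
  constructor
  · rintro ⟨x, y, hx, hy, h, rfl⟩
    exact ⟨y, x, not_not.mp hy, hx, h.symm, Sym2.eq_swap⟩
  · rintro ⟨x, y, hx, hy, h, rfl⟩
    exact ⟨y, x, hy, fun hn => hn hx, h.symm, Sym2.eq_swap⟩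

end BAS_

open BAS_

theorem bas1_proof : Stmt_BAS1 := by
  intro V _ X S
  rw [bdry_eq, Set.ncard_image_of_injOn (injOn X S)]

theorem bas2_proof : Stmt_BAS2 := by
  intro V _ X ε hε
  constructor
  · intro h S hS h2
    have hcard : S.ncard + Sᶜ.ncard = Nat.card V := Set.ncard_add_ncard_compl S
    have hpos : 0 < S.ncard := (Set.ncard_pos).mpr hS
    have hc : Sᶜ.Nonempty := by
      rw [← Set.ncard_pos]
      omega
    have h3 := h S hS hc
    have hle : (S.ncard : ℝ) ≤ (Sᶜ.ncard : ℝ) := by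
      have : S.ncard ≤ Sᶜ.ncard := by omega
      exact_mod_cast this
    rw [min_eq_left hle, le_div_iff₀ (by exact_mod_cast hpos), bas1_proof] at h3
    exact h3
  · intro h
    have key : ∀ S : Set V, S.Nonempty → S.ncard ≤ Sᶜ.ncard →
        ε ≤ ((bdry X S).ncard : ℝ) / min (S.ncard : ℝ) (Sᶜ.ncard : ℝ) := by
      intro S hS hle
      have hcard : S.ncard + Sᶜ.ncard = Nat.card V := Set.ncard_add_ncard_compl S
      have hpos : 0 < S.ncard := (Set.ncard_pos).mpr hS
      have h3 := h S hS (by omega)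
      have hle' : (S.ncard : ℝ) ≤ (Sᶜ.ncard : ℝ) := by exact_mod_cast hle
      rw [min_eq_left hle', le_div_iff₀ (by exact_mod_cast hpos), bas1_proof]
      exact h3
    intro S hS hc
    rcases le_total S.ncard Sᶜ.ncard with hle | hle
    · exact key S hS hle
    · have h3 := key Sᶜ hc (by rw [compl_compl]; exact hle)
      rw [compl_compl, bdry_compl, min_comm] at h3
      exact h3

theorem bas3_proof : Stmt_BAS3 := by
  intro V _ X ε hε h
  intro x y
  by_contra hxy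
  set S : Set V := {w | X.Reachable x w} with hS
  have hx : x ∈ S := SimpleGraph.Reachable.refl x
  have hy : y ∈ Sᶜ := hxy
  have h3 := h S ⟨x, hx⟩ ⟨y, hy⟩
  have hb : bdry X S = ∅ := by
    ext p
    simp only [Set.mem_empty_iff_false, iff_false]
    rintro ⟨a, b, ha, hb, hab, rfl⟩
    exact hb (SimpleGraph.Reachable.trans ha hab.reachable)
  rw [hb, Set.ncard_empty] at h3
  simp at h3
  linarith

end Pool.HRG
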