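import Pool.Agent.HRG.Stmts

/-!
# HRG, module CHS: an inequality for binomial coefficients
-/

namespace Pool.HRG

namespace CHS_

theorem mono {N s : ℕ} (hs : 2 * s ≤ N) {i : ℕ} (hi : i ≤ s) : N.choose i ≤ N.choose s := by
  induction s with
  | zero =>
    have : i = 0 := by omega
    rw [this]
  | succ s ih =>
    rcases Nat.lt_or_ge i (s + 1) with h | h
    · exact (ih (by omega) (by omega)).trans
        (Nat.choose_le_succ_of_lt_half_left (by omega))
    · have : i = s + 1 := by omega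
      rw [this]

theorem two_pow_le (s : ℕ) : 2 ^ s ≤ (2 * s).choose s := by
  induction s with
  | zero => simp
  | succ s ih =>
    have h1 := Nat.succ_mul_centralBinom_succ s
    unfold Nat.centralBinom at h1
    have h2 : (s + 1) * (2 * 2 ^ s) ≤ (s + 1) * (2 * (s + 1)).choose (s + 1) := by
      rw [h1]
      have h3 : 2 * (s + 1) * 2 ^ s ≤ 2 * (2 * s + 1) * (2 * s).choose s :=
        Nat.mul_le_mul (by omega) ih
      calc (s + 1) * (2 * 2 ^ s) = 2 * (s + 1) * 2 ^ s := by ring
        _ ≤ _ := h3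
    have h4 := Nat.le_of_mul_le_mul_left h2 (Nat.succ_pos s)
    rw [pow_succ, mul_comm]
    exact h4

theorem sq_le (s j : ℕ) (hj : 10 * j ≤ s) : (s + j).choose s ^ 2 ≤ 2 ^ s := by
  have h1 : (s + j).choose s * 8 ^ s ≤ 9 ^ (s + j) := by
    have h2 := add_pow 8 1 (s + j)
    have h3 : (8 + 1 : ℕ) ^ (s + j) = 9 ^ (s + j) := by norm_num
    rw [← h3, h2]
    have h4 := Finset.single_le_sum (f := fun m => 8 ^ m * 1 ^ (s + j - m) * (s + j).choose m)
      (fun i _ => Nat.zero_le _) (Finset.mem_range.2 (show s < s + j + 1 by omega))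
    refine le_trans (le_of_eq ?_) h4
    simp [mul_comm]
  have h5 : (81 : ℕ) ^ (s + j) ≤ 128 ^ s := by
    obtain ⟨t, rfl⟩ := Nat.exists_eq_add_of_le hj
    calc (81 : ℕ) ^ (10 * j + t + j) = (81 ^ 11) ^ j * 81 ^ t := by
          rw [← pow_mul, ← pow_add]
          congr 1
          omega
      _ ≤ (128 ^ 10) ^ j * 128 ^ t :=
        Nat.mul_le_mul (Nat.pow_le_pow_left (by norm_num) _) (Nat.pow_le_pow_left (by norm_num) _)
      _ = 128 ^ (10 * j + t) := by rw [← pow_mul, ← pow_add]
  have h6 : (s + j).choose s ^ 2 * 64 ^ s ≤ 2 ^ s * 64 ^ s := by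
    calc (s + j).choose s ^ 2 * 64 ^ s = ((s + j).choose s * 8 ^ s) ^ 2 := by
          rw [mul_pow, ← pow_mul, mul_comm s 2, pow_mul]
          norm_num
      _ ≤ (9 ^ (s + j)) ^ 2 := Nat.pow_le_pow_left h1 2
      _ = 81 ^ (s + j) := by
          rw [← pow_mul, mul_comm (s + j) 2, pow_mul]
          norm_num
      _ ≤ 128 ^ s := h5
      _ = 2 ^ s * 64 ^ s := by
          rw [← mul_pow]
          norm_num
  exact Nat.le_of_mul_le_mul_right h6 (by positivity)

end CHS_

open CHS_ in
theorem chs_proof : Stmt_CHS := by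
  intro N s hs hN
  have h1 := sq_le s (s / 10) (Nat.mul_div_le s 10)
  have h2 : 2 ^ s ≤ N.choose s := (two_pow_le s).trans (Nat.choose_le_choose s hN)
  have h3 : N ≤ N.choose s := by
    have := mono hN hs
    rwa [Nat.choose_one_right] at this
  have h4 : N.choose (s / 10) ≤ N.choose s := mono hN (Nat.div_le_self s 10)
  have h5 : (s + s / 10).choose s ^ 6 ≤ N.choose s ^ 3 := by
    calc (s + s / 10).choose s ^ 6 = ((s + s / 10).choose s ^ 2) ^ 3 := by rw [← pow_mul]
      _ ≤ (N.choose s) ^ 3 := Nat.pow_le_pow_left (h1.trans h2) 3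
  calc N * (N.choose (s / 10) * (s + s / 10).choose s ^ 6)
      ≤ N.choose s * (N.choose s * N.choose s ^ 3) :=
        Nat.mul_le_mul h3 (Nat.mul_le_mul h4 h5)
    _ = N.choose s ^ 5 := by ring

end Pool.HRG
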