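import Pool.Agent.HRG.Stmts

/-!
# Highly regular graphs: module CLQ (disjoint unions of cliques)
-/

namespace Pool.HRG

namespace CLQ_

/-- the sphere of a single vertex is its neighbourhood -/
theorem sph_singleton {V : Type} (X : SimpleGraph V) (v : V) :
    sph X {v} = X.neighborSet v := by
  ext w
  simp only [sph, Set.mem_setOf_eq, Set.mem_singleton_iff, forall_eq,
    SimpleGraph.mem_neighborSet]
  refine ⟨fun h => h.2, fun h => ⟨fun hwv => ?_, h⟩⟩
  subst hwv
  exact X.loopless.irrefl _ h

/-- the neighbourhood of a point in an induced graph -/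
theorem ncard_induce {V : Type} (X : SimpleGraph V) (S : Set V) (x : S) :
    ((X.induce S).neighborSet x).ncard = (X.neighborSet x ∩ S).ncard := by
  rw [← Set.ncard_image_of_injective _ (Subtype.val_injective)]
  apply congrArg
  ext y
  simp only [Set.mem_image, SimpleGraph.mem_neighborSet, SimpleGraph.comap_adj, Set.mem_inter_iff,
    Function.Embedding.subtype_apply]
  constructor
  · rintro ⟨z, hz, rfl⟩
    exact ⟨hz, z.2⟩
  · rintro ⟨h1, h2⟩
    exact ⟨⟨y, h2⟩, h1, rfl⟩

end CLQ_

open CLQ_

theorem clq_proof : Stmt_CLQ := by
  intro j
  induction j with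
  | zero => intro k _ V _ _ X _ _; trivial
  | succ j ih =>
    intro k hjk V _ _ X hdeg hclq
    refine ⟨⟨fun v => by simpa using hdeg v, fun h => (not_isEmpty_of_nonempty V h).elim⟩, ?_⟩
    intro v
    have hfun : (fun i : Fin j => (fun i : Fin (j + 1) => k - (i : ℕ)) i.succ)
        = (fun i : Fin j => (k - 1) - (i : ℕ)) := by
      funext i
      simp only [Fin.val_succ]
      omega
    rw [hfun]
    have hsph := sph_singleton X v
    have hcard : (sph X {v}).ncard = k := by rw [hsph]; exact hdeg v
    haveI : Nonempty (sph X {v}) := by
      have : (sph X {v}).Nonempty := by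
        apply Set.nonempty_of_ncard_ne_zero
        omega
      exact this.to_subtype
    apply ih (k - 1) (by omega) (X.induce (sph X {v}))
    · intro x
      rw [ncard_induce]
      have hx : (x : V) ∈ sph X {v} := x.2
      have hvx : X.Adj v (x : V) := by
        have h0 := hx
        simp only [hsph] at h0
        exact h0
      have hset : X.neighborSet (x : V) ∩ sph X {v} = sph X {v} \ {(x : V)} := by
        ext y
        simp only [Set.mem_inter_iff, SimpleGraph.mem_neighborSet, Set.mem_sdiff,
          Set.mem_singleton_iff]
        constructor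
        · rintro ⟨h1, h2⟩
          refine ⟨h2, fun h => ?_⟩
          subst h
          exact X.loopless.irrefl _ h1
        · rintro ⟨h1, h2⟩
          refine ⟨?_, h1⟩
          have h0 := h1
          simp only [hsph] at h0
          exact hclq v x y hvx h0 (fun h => h2 h.symm)
      rw [hset, Set.ncard_sdiff_singleton_of_mem hx, hcard]
    · intro a b c hab hac hbc
      have h1 : X.Adj (a : V) (b : V) := hab
      have h2 : X.Adj (a : V) (c : V) := hac
      have h3 : (b : V) ≠ (c : V) := fun h => hbc (Subtype.ext h)
      exact hclq a b c h1 h2 h3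

end Pool.HRG
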