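import Pool.Agent.HRG.Stmts

/-!
# HRG, module CYC: cycles are `(2, 0, …, 0)`-regular
-/

namespace Pool.HRG

namespace CYC_

theorem edgeless_isReg : ∀ (n : ℕ) {V : Type} (X : SimpleGraph V), (∀ x y, ¬ X.Adj x y) →
    IsReg n (fun _ : Fin n => 0) X := by
  intro n
  induction n with
  | zero => intro V X _; exact trivial
  | succ n ih =>
    intro V X hX
    refine ⟨⟨fun v => ?_, fun _ => rfl⟩, fun v => ?_⟩
    · have : X.neighborSet v = ∅ := by
        ext w
        simp [hX v w]
      rw [this]
      simp
    · apply ih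
      intro x y hxy
      exact hX x.1 y.1 (by simpa using hxy)

end CYC_

/-- triangle-free `d`-regular graphs are `(d, 0, …, 0)`-regular -/
theorem triFree_isReg (n d : ℕ) {V : Type} [Nonempty V] (X : SimpleGraph V)
    (hd : ∀ v, (X.neighborSet v).ncard = d) (hT : TriFree X) :
    IsReg n (fun i : Fin n => if (i : ℕ) = 0 then d else 0) X := by
  cases n with
  | zero => exact trivial
  | succ n =>
    refine ⟨⟨fun v => ?_, fun h => ?_⟩, fun v => ?_⟩
    · simpa using hd v
    · exact absurd h (not_isEmpty_of_nonempty V)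
    · have e1 : (fun i : Fin n => (fun i : Fin (n + 1) => if (i : ℕ) = 0 then d else 0) i.succ) =
          fun _ => 0 := by
        funext i
        simp
      rw [e1]
      apply CYC_.edgeless_isReg
      intro x y hxy
      have hx := x.2.2 v rfl
      have hy := y.2.2 v rfl
      have hxy' : X.Adj x.1 y.1 := by simpa using hxy
      exact hT v x.1 y.1 hx hxy' hy

theorem cyc_proof (h1 : Stmt_FAM1) : Stmt_CYC := by
  intro e n hn
  show InfMany (fun X => Conn e X ∧ IsReg n (aC n) X)
  apply h1
  intro N
  have hev : Even (2 * N + 4) := ⟨N + 2, by ring⟩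
  refine ⟨Fin (2 * N + 4), SimpleGraph.cycleGraph (2 * N + 4), inferInstance, ?_, ?_, ?_⟩
  · rw [Nat.card_eq_fintype_card, Fintype.card_fin]
    omega
  · exact ⟨SimpleGraph.cycleGraph_preconnected, Or.inl ⟨0⟩⟩
  · have hT : TriFree (SimpleGraph.cycleGraph (2 * N + 4)) := by
      intro x y z hxy hyz hxz
      have c := SimpleGraph.cycleGraph.bicoloring_of_even (2 * N + 4) hev
      have a1 := c.valid hxy
      have a2 := c.valid hyz
      have a3 := c.valid hxz
      revert a1 a2 a3
      cases c x <;> cases c y <;> cases c z <;> simp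
    have hd : ∀ v, ((SimpleGraph.cycleGraph (2 * N + 4)).neighborSet v).ncard = 2 := by
      intro v
      have h2 := SimpleGraph.cycleGraph_degree_three_le (n := 2 * N + 1) (v := v)
      rw [← SimpleGraph.card_neighborSet_eq_degree] at h2
      rw [Set.ncard_eq_toFinset_card', Set.toFinset_card]
      exact h2
    exact triFree_isReg n 2 _ hd hT

end Pool.HRG
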