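import Mathlib

/-!
# Highly regular graphs: definitions (MP_21018d_co)

All graphs are finite simple graphs on types in `Type`.  The parameter `e : Prop` that appears
below says whether the EMPTY graph (the graph without vertices) counts as connected; every
theorem is proved for both conventions (for all `e`).
-/

namespace Pool.HRG

/-- `X` is `d`-regular.  The empty graph is `0`-regular and `d`-regular for no `d ≥ 1`. -/
def Deg {V : Type} (X : SimpleGraph V) (d : ℕ) : Prop :=
  (∀ v, (X.neighborSet v).ncard = d) ∧ (IsEmpty V → d = 0)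

/-- The vertex set of the sphere `S_X(C)`: the vertices outside `C` that are adjacent to every
vertex of `C`.  The sphere itself is the induced graph `X.induce (sph X C)`. -/
def sph {V : Type} (X : SimpleGraph V) (C : Set V) : Set V :=
  {w | w ∉ C ∧ ∀ c ∈ C, X.Adj c w}

/-- `X` is `(a_0, …, a_(n-1))`-regular: it is `a_0`-regular and, when `n ≥ 2`, the sphere
`S_X({v})` is `(a_1, …, a_(n-1))`-regular for every vertex `v`. -/
def IsReg : (n : ℕ) → (Fin n → ℕ) → ∀ {V : Type}, SimpleGraph V → Prop
  | 0, _, _, _ => True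
  | n + 1, a, _, X => Deg X (a 0) ∧ ∀ v, IsReg n (fun i => a i.succ) (X.induce (sph X {v}))

/-- Connectedness of a graph; `e` says whether the empty graph counts as connected. -/
def Conn (e : Prop) {V : Type} (X : SimpleGraph V) : Prop :=
  X.Preconnected ∧ (Nonempty V ∨ e)

/-- `X` is `a`-connected regular: `a`-regular, and `S_X(C)` is connected for every clique `C`
with `|C| ≤ n - 1`. -/
def IsCReg (e : Prop) (n : ℕ) (a : Fin n → ℕ) {V : Type} (X : SimpleGraph V) : Prop :=
  IsReg n a X ∧
    ∀ C : Finset V, X.IsClique (C : Set V) → C.card < n → Conn e (X.induce (sph X (C : Set V)))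

/-- The edge boundary `∂S`: the set of edges joining `S` to its complement. -/
def bdry {V : Type} (X : SimpleGraph V) (S : Set V) : Set (Sym2 V) :=
  {p | ∃ x y, x ∈ S ∧ y ∉ S ∧ X.Adj x y ∧ p = s(x, y)}

/-- `h(X) ≥ ε` for the Cheeger constant `h(X)`, the minimum of `|∂S| / min(|S|, |X ∖ S|)` over
all sets `S` of vertices with `∅ ≠ S ≠ X`. -/
def CheegerGE {V : Type} (X : SimpleGraph V) (ε : ℝ) : Prop :=
  ∀ S : Set V, S.Nonempty → Sᶜ.Nonempty →
    ε ≤ ((bdry X S).ncard : ℝ) / min (S.ncard : ℝ) (Sᶜ.ncard : ℝ)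

/-- There are infinitely many pairwise non-isomorphic finite graphs with the property `P`. -/
def InfMany (P : ∀ {V : Type}, SimpleGraph V → Prop) : Prop :=
  ∃ (V : ℕ → Type) (X : ∀ k, SimpleGraph (V k)),
    (∀ k, Finite (V k)) ∧ (∀ k, P (X k)) ∧ ∀ i j, i ≠ j → IsEmpty (X i ≃g X j)

/-- `HR(n)`: some connected `a`-regular graph exists. -/
def HR (e : Prop) (n : ℕ) : Set (Fin n → ℕ) :=
  {a | ∃ (V : Type) (X : SimpleGraph V), Finite V ∧ Conn e X ∧ IsReg n a X}

/-- `HR_∞(n)`: infinitely many pairwise non-isomorphic connected `a`-regular graphs exist. -/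
def HRinf (e : Prop) (n : ℕ) : Set (Fin n → ℕ) :=
  {a | InfMany (fun X => Conn e X ∧ IsReg n a X)}

/-- `HR_exp(n)`: an infinite family of `a`-regular expanders exists. -/
def HRexp (n : ℕ) : Set (Fin n → ℕ) :=
  {a | ∃ ε : ℝ, 0 < ε ∧ InfMany (fun X => IsReg n a X ∧ CheegerGE X ε)}

/-- `HRC(n)`: some `a`-connected regular graph exists. -/
def HRC (e : Prop) (n : ℕ) : Set (Fin n → ℕ) :=
  {a | ∃ (V : Type) (X : SimpleGraph V), Finite V ∧ IsCReg e n a X}

/-- `HRC_∞(n)`: infinitely many pairwise non-isomorphic `a`-connected regular graphs exist. -/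
def HRCinf (e : Prop) (n : ℕ) : Set (Fin n → ℕ) :=
  {a | InfMany (fun X => IsCReg e n a X)}

/-- `HRC_exp(n)`: an infinite family of `a`-connected regular expanders exists. -/
def HRCexp (e : Prop) (n : ℕ) : Set (Fin n → ℕ) :=
  {a | ∃ ε : ℝ, 0 < ε ∧ InfMany (fun X => IsCReg e n a X ∧ CheegerGE X ε)}

end Pool.HRG
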