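import Pool.Agent.HRG.Stmts

namespace Pool.HRG

theorem expf_proof (h1 : Stmt_BAS2) (h2 : Stmt_FAM1) (h3 : Stmt_XG) (h4 : Stmt_LGA)
    (h5 : Stmt_LGB) : Stmt_EXPF := by
  intro n hn
  obtain ⟨ε, hε, hX⟩ := h3 n hn
  have hn0 : (0 : ℝ) < ((n + 1 : ℕ) : ℝ) := by positivity
  have hK : (0 : ℝ) < ((n + 1 : ℕ) : ℝ) ^ 2 / ε + ((n + 1 : ℕ) : ℝ) := by positivity
  refine ⟨2 / (((n + 1 : ℕ) : ℝ) ^ 2 / ε + ((n + 1 : ℕ) : ℝ)), by positivity, h2 _ ?_⟩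
  intro N
  obtain ⟨V, X, hV, hcard, hdeg, htri, hch⟩ := hX (N + 1)
  haveI := hV
  haveI : Nonempty V := (Nat.card_pos_iff.mp (by omega)).1
  have hmul := (h1 X ε hε).mp hch
  obtain ⟨hE, hS⟩ := h5 (n + 1) ε (by omega) hε X hdeg hmul
  refine ⟨X.edgeSet, LG X, inferInstance, ?_, h4 n (by omega) X hdeg htri, ?_⟩
  · nlinarith [Nat.mul_le_mul (show 3 ≤ n + 1 by omega) hcard]
  · rw [h1 (LG X) _ (by positivity)]
    intro S _ hS2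
    have := hS S hS2
    rw [div_mul_eq_mul_div, div_le_iff₀ hK]
    linarith

end Pool.HRG
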