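import Pool.Agent.HRG.Stmts

/-!
# HRG module FAM (families)
-/

namespace Pool.HRG

namespace FAM_

/-- A member of a family. -/
structure Mem (P : ∀ {V : Type}, SimpleGraph V → Prop) where
  V : Type
  X : SimpleGraph V
  fin : Finite V
  prop : P X

/-- The recursive choice. -/
noncomputable def seq {P : ∀ {V : Type}, SimpleGraph V → Prop} (f : ℕ → Mem P) : ℕ → Mem P
  | 0 => f 0
  | k + 1 => f (Nat.card (seq f k).V + 1)

end FAM_

open FAM_ in
theorem fam1_proof : Stmt_FAM1 := by
  intro P hP
  have h : ∀ N : ℕ, ∃ m : Mem @P, N ≤ Nat.card m.V := by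
    intro N
    obtain ⟨V, X, hV, hN, hX⟩ := hP N
    exact ⟨⟨V, X, hV, hX⟩, hN⟩
  choose f hf using h
  have hstep : ∀ k, Nat.card (seq f k).V < Nat.card (seq f (k + 1)).V := fun k =>
    Nat.lt_of_succ_le (hf (Nat.card (seq f k).V + 1))
  have hmono : StrictMono fun k => Nat.card (seq f k).V := strictMono_nat_of_lt_succ hstep
  refine ⟨fun k => (seq f k).V, fun k => (seq f k).X, fun k => (seq f k).fin,
    fun k => (seq f k).prop, fun i j hij => ⟨fun φ => hij ?_⟩⟩
  exact hmono.injective (Nat.card_congr φ.toEquiv)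

theorem fam2_proof : Stmt_FAM2 := by
  intro V X hfin hiso M
  by_contra hcon
  push Not at hcon
  have key : ∀ k, ∃ p : Σ c : Fin (M + 1), SimpleGraph (Fin c), Nonempty (X k ≃g p.2) := by
    intro k
    have := hfin k
    have e := Finite.equivFin (V k)
    refine ⟨⟨⟨Nat.card (V k), Nat.lt_succ_of_le (hcon k)⟩, (X k).map e.toEmbedding⟩, ⟨?_⟩⟩
    exact SimpleGraph.Iso.map e (X k)
  choose p hp using key
  have hinj : Function.Injective p := by
    intro i j hij
    by_contra hne
    obtain ⟨φ⟩ := hp i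
    obtain ⟨ψ⟩ := hp j
    rw [← hij] at ψ
    exact (hiso i j hne).false (φ.trans ψ.symm)
  have hfinite : Finite (Σ c : Fin (M + 1), SimpleGraph (Fin c)) := inferInstance
  exact not_injective_infinite_finite p hinj

end Pool.HRG
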