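import Pool.Agent.HRG.Stmts

/-!
# Expanders of bounded degree have exponential growth
-/

namespace Pool.HRG

namespace GROW_

theorem exists_R (c : ℝ) (hc : 1 < c) : ∃ R : ℕ, 4 * ((R : ℝ) + 1) ^ 2 < c ^ R := by
  have h1 := isLittleO_pow_const_const_pow_of_one_lt (R := ℝ) 2 hc
  have h2 := h1.def (show (0 : ℝ) < 1 / 17 by norm_num)
  obtain ⟨N, hN⟩ := Filter.eventually_atTop.1 h2
  refine ⟨max N 1, ?_⟩
  have h3 := hN (max N 1) (le_max_left _ _)
  have h4 : (1 : ℝ) ≤ ((max N 1 : ℕ) : ℝ) := by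
    have : 1 ≤ max N 1 := le_max_right _ _
    exact_mod_cast this
  rw [Real.norm_of_nonneg (by positivity), Real.norm_of_nonneg (by positivity)] at h3
  have h5 : 0 < c ^ (max N 1) := by positivity
  nlinarith

theorem pairs_le {V : Type} [Finite V] (X : SimpleGraph V) (d : ℕ)
    (hd : ∀ v, (X.neighborSet v).ncard ≤ d) (v : V) (r : ℕ) :
    (pairs X (ball X v r)).ncard ≤ d * (ball X v (r + 1) \ ball X v r).ncard := by
  classical
  have h1 := Set.toFinite (pairs X (ball X v r))
  have h2 := Set.toFinite (ball X v (r + 1) \ ball X v r)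
  rw [Set.ncard_eq_toFinset_card _ h1, Set.ncard_eq_toFinset_card _ h2]
  refine Finset.card_le_mul_card_image_of_maps_to (f := Prod.snd) ?_ d ?_
  · intro p hp
    rw [Set.Finite.mem_toFinset] at hp ⊢
    obtain ⟨ha, hb, hadj⟩ := hp
    exact ⟨Or.inr ⟨p.1, ha, hadj⟩, hb⟩
  · intro y _
    refine le_trans ?_ (hd y)
    rw [Set.ncard_eq_toFinset_card _ (Set.toFinite (X.neighborSet y))]
    refine Finset.card_le_card_of_injOn Prod.fst ?_ ?_
    · intro p hp
      rw [Finset.mem_coe, Finset.mem_filter, Set.Finite.mem_toFinset] at hp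
      obtain ⟨⟨_, _, hadj⟩, hy⟩ := hp
      rw [Finset.mem_coe, Set.Finite.mem_toFinset, SimpleGraph.mem_neighborSet]
      rw [hy] at hadj
      exact hadj.symm
    · intro p hp q hq hpq
      rw [Finset.mem_coe, Finset.mem_filter] at hp hq
      exact Prod.ext hpq (hp.2.trans hq.2.symm)

theorem mem_ball_self {V : Type} (X : SimpleGraph V) (v : V) (r : ℕ) : v ∈ ball X v r := by
  induction r with
  | zero => exact rfl
  | succ r ih => exact Or.inl ih

end GROW_

open GROW_

theorem grow_proof : Stmt_GROW := by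
  intro d ε hε
  have hd1 : (0 : ℝ) < (d : ℝ) + 1 := by positivity
  obtain ⟨R, hR⟩ := exists_R (1 + ε / ((d : ℝ) + 1)) (by
    have : 0 < ε / ((d : ℝ) + 1) := div_pos hε hd1
    linarith)
  refine ⟨8 * (R + 1) ^ 2, ?_⟩
  intro V _ X hdeg hexp v hball
  by_contra hcon
  rw [not_le] at hcon
  have key : ∀ r : ℕ, r ≤ R → (1 + ε / ((d : ℝ) + 1)) ^ r ≤ ((ball X v r).ncard : ℝ) := by
    intro r
    induction r with
    | zero =>
      intro _
      have : (ball X v 0).ncard = 1 := by
        show ({v} : Set V).ncard = 1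
        exact Set.ncard_singleton v
      rw [this]
      simp
    | succ r ih =>
      intro hr
      have ih' := ih (by omega)
      have h1 : 2 * (ball X v r).ncard ≤ Nat.card V := by
        have h2 := hball r
        have h3 : (r + 1) ^ 2 ≤ (R + 1) ^ 2 := Nat.pow_le_pow_left (by omega) 2
        omega
      have h2 := hexp (ball X v r) ⟨v, mem_ball_self X v r⟩ h1
      have h3 := pairs_le X d hdeg v r
      have h4 : (ball X v (r + 1) \ ball X v r).ncard + (ball X v r).ncard =
          (ball X v (r + 1)).ncard :=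
        Set.ncard_sdiff_add_ncard_of_subset (fun w hw => Or.inl hw) (Set.toFinite _)
      have h5 : ε * ((ball X v r).ncard : ℝ) ≤
          ((d : ℝ) + 1) * ((ball X v (r + 1) \ ball X v r).ncard : ℝ) := by
        have h6 : ((pairs X (ball X v r)).ncard : ℝ) ≤
            (d : ℝ) * ((ball X v (r + 1) \ ball X v r).ncard : ℝ) := by exact_mod_cast h3
        have h7 : (0 : ℝ) ≤ ((ball X v (r + 1) \ ball X v r).ncard : ℝ) := Nat.cast_nonneg _
        linarith
      have h6 : ε / ((d : ℝ) + 1) * ((ball X v r).ncard : ℝ) ≤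
          ((ball X v (r + 1) \ ball X v r).ncard : ℝ) := by
        rw [div_mul_eq_mul_div, div_le_iff₀ hd1]
        linarith
      have h7 : ((ball X v (r + 1)).ncard : ℝ) =
          ((ball X v (r + 1) \ ball X v r).ncard : ℝ) + ((ball X v r).ncard : ℝ) := by
        exact_mod_cast h4.symm
      have h8 : 0 < 1 + ε / ((d : ℝ) + 1) := by
        have : 0 < ε / ((d : ℝ) + 1) := div_pos hε hd1
        linarith
      rw [pow_succ, h7]
      calc (1 + ε / ((d : ℝ) + 1)) ^ r * (1 + ε / ((d : ℝ) + 1))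
          ≤ ((ball X v r).ncard : ℝ) * (1 + ε / ((d : ℝ) + 1)) :=
            mul_le_mul_of_nonneg_right ih' h8.le
        _ ≤ _ := by linarith
  have h1 := key R le_rfl
  have h2 : ((ball X v R).ncard : ℝ) ≤ 4 * ((R : ℝ) + 1) ^ 2 := by exact_mod_cast hball R
  linarith

end Pool.HRG
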