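import Pool.Agent.HRG.Stmts

namespace Pool.HRG

theorem hex1_proof (h1 : Stmt_FAM1) (h2 : Stmt_TOR) : Stmt_HEX1 := by
  intro e
  refine h1 _ ?_
  intro N
  haveI : NeZero (N + 13) := ⟨by omega⟩
  refine ⟨ZMod (N + 13), circ (N + 13), Finite.of_fintype _, ?_, h2 e _ (by omega)⟩
  rw [Nat.card_eq_fintype_card, ZMod.card]
  omega

theorem hex2_proof (h1 : Stmt_BAS2) (h2 : Stmt_FAM2) (h3 : Stmt_HEXA) (h4 : Stmt_HEXB)
    (h5 : Stmt_HEXC) (h6 : Stmt_GROW) : Stmt_HEX2 := by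
  rintro e ⟨ε, hε, V, X, hfin, hP, hiso⟩
  obtain ⟨M, hM⟩ := h6 6 ε hε
  obtain ⟨k, hk⟩ := h2 V X hfin hiso M
  haveI := hfin k
  have hH := h3 e (X k) (hP k).1
  obtain ⟨R, H, r6, hh2, rh3, rb, hb, hsurj⟩ := h4 (X k) hH
  obtain ⟨v⟩ : Nonempty (V k) := (Nat.card_pos_iff.mp (by omega)).1
  obtain ⟨f, hf⟩ : ∃ f : Flag (X k), f.1.1 = v := by
    have hne : ((X k).neighborSet v).Nonempty := by
      rw [Set.nonempty_iff_ne_empty]
      intro h0
      have := (hH v).1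
      rw [h0, Set.ncard_empty] at this
      omega
    obtain ⟨y, hy⟩ := hne
    have hne2 : {z | (X k).Adj v z ∧ (X k).Adj y z}.Nonempty := by
      rw [Set.nonempty_iff_ne_empty]
      intro h0
      have := (hH v).2.1 y hy
      rw [h0, Set.ncard_empty] at this
      omega
    obtain ⟨z, hz⟩ := hne2
    exact ⟨⟨(v, y, z), hy, hz.1, hz.2⟩, rfl⟩
  have := hM (X k) (fun v => (hH v).1.le) ((h1 (X k) ε hε).mp (hP k).2) v
    (fun r => by
      rw [← hf]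
      exact h5 (X k) (fun f => f.1.1) (fun f => f.1.2.1) R H r6 hh2 rh3 rb hb hsurj f r)
  omega

end Pool.HRG
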