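import Pool.Agent.HRG.Stmts

/-! Module HEXA: local structure of `(6,2)`-connected regular graphs. -/

set_option autoImplicit false

namespace Pool.HRG

namespace HEXA_

theorem sph_single {V : Type} (X : SimpleGraph V) (v : V) : sph X {v} = X.neighborSet v := by
  ext w
  simp only [sph, Set.mem_singleton_iff, Set.mem_setOf_eq, SimpleGraph.mem_neighborSet]
  constructor
  · rintro ⟨-, h⟩
    exact h v rfl
  · intro h
    exact ⟨fun h1 => X.loopless.irrefl v (h1 ▸ h), fun c hc => hc ▸ h⟩

theorem induce_ncard {V : Type} (X : SimpleGraph V) (S : Set V) (y : S) :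
    ((X.induce S).neighborSet y).ncard = {z | z ∈ S ∧ X.Adj y z}.ncard := by
  have h1 : {z | z ∈ S ∧ X.Adj y z} = Subtype.val '' ((X.induce S).neighborSet y) := by
    ext z
    constructor
    · rintro ⟨h1, h2⟩
      exact ⟨⟨z, h1⟩, h2, rfl⟩
    · rintro ⟨w, hw, rfl⟩
      exact ⟨w.2, hw⟩
  rw [h1, Set.ncard_image_of_injective _ Subtype.val_injective]

end HEXA_

open HEXA_ in
theorem hexa_proof : Stmt_HEXA := by
  intro e V _ X hX x
  obtain ⟨⟨⟨hd, -⟩, hs⟩, hc⟩ := hX
  have hx := hs x
  obtain ⟨⟨hd2, -⟩, -⟩ := hx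
  refine ⟨hd x, ?_, ?_⟩
  · intro y hy
    have hy' : y ∈ sph X {x} := by
      rw [sph_single]
      exact hy
    have h1 := hd2 ⟨y, hy'⟩
    rw [induce_ncard] at h1
    have h2 : {z | z ∈ sph X {x} ∧ X.Adj y z} = {z | X.Adj x z ∧ X.Adj y z} := by
      ext z
      rw [sph_single]
      rfl
    rw [← h2]
    exact h1
  · have h1 := hc {x} (by simp) (by simp)
    have h2 : sph X ((({x} : Finset V) : Set V)) = X.neighborSet x := by
      rw [Finset.coe_singleton, sph_single]
    have h3 := h1.1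
    rw [h2] at h3
    exact h3

end Pool.HRG
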