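import Pool.Agent.HRG.Stmts

/-!
# Flag rotations of `(6,2)`-connected regular graphs
-/

namespace Pool.HRG

namespace HEXB_

variable {V : Type}

open Classical in
/-- the other common neighbour of `x` and `y` -/
noncomputable def ot (X : SimpleGraph V) (x y z : V) : V :=
  if h : ∃ w, (X.Adj x w ∧ X.Adj y w) ∧ w ≠ z then h.choose else z

variable {X : SimpleGraph V} {x y z w : V}

theorem ot_spec (hX : Hex X) (hxy : X.Adj x y) (hxz : X.Adj x z) (hyz : X.Adj y z) :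
    (X.Adj x (ot X x y z) ∧ X.Adj y (ot X x y z)) ∧ ot X x y z ≠ z := by
  have h2 := (hX x).2.1 y hxy
  obtain ⟨a, b, hab, hS⟩ := Set.ncard_eq_two.1 h2
  have hz : z ∈ ({a, b} : Set V) := by
    rw [← hS]
    exact ⟨hxz, hyz⟩
  have ha : X.Adj x a ∧ X.Adj y a := by
    have : a ∈ {z | X.Adj x z ∧ X.Adj y z} := by rw [hS]; simp
    exact this
  have hb : X.Adj x b ∧ X.Adj y b := by
    have : b ∈ {z | X.Adj x z ∧ X.Adj y z} := by rw [hS]; simp
    exact this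
  have hex : ∃ w, (X.Adj x w ∧ X.Adj y w) ∧ w ≠ z := by
    rcases hz with h | h
    · exact ⟨b, hb, fun h' => hab (h.symm.trans h'.symm)⟩
    · exact ⟨a, ha, fun h' => hab (h'.trans h)⟩
  unfold ot
  rw [dif_pos hex]
  exact hex.choose_spec

theorem ot_unique (hX : Hex X) (hxy : X.Adj x y) (hxz : X.Adj x z) (hyz : X.Adj y z)
    (hxw : X.Adj x w) (hyw : X.Adj y w) (hwz : w ≠ z) : w = ot X x y z := by
  have h2 := (hX x).2.1 y hxy
  obtain ⟨a, b, hab, hS⟩ := Set.ncard_eq_two.1 h2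
  have hmem : ∀ u, X.Adj x u → X.Adj y u → u = a ∨ u = b := by
    intro u h1 h3
    have : u ∈ ({a, b} : Set V) := by
      rw [← hS]
      exact ⟨h1, h3⟩
    exact this
  obtain ⟨⟨h3, h4⟩, h5⟩ := ot_spec hX hxy hxz hyz
  rcases hmem z hxz hyz with h6 | h6 <;> rcases hmem w hxw hyw with h7 | h7 <;>
    rcases hmem _ h3 h4 with h8 | h8
  · exact h7.trans h8.symm
  · exact absurd (h7.trans h6.symm) hwz
  · exact absurd (h8.trans h6.symm) h5
  · exact h7.trans h8.symm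
  · exact h7.trans h8.symm
  · exact absurd (h8.trans h6.symm) h5
  · exact absurd (h7.trans h6.symm) hwz
  · exact h7.trans h8.symm

theorem ot_ot (hX : Hex X) (hxy : X.Adj x y) (hxz : X.Adj x z) (hyz : X.Adj y z) :
    ot X x y (ot X x y z) = z := by
  obtain ⟨⟨h3, h4⟩, h5⟩ := ot_spec hX hxy hxz hyz
  exact (ot_unique hX hxy h3 h4 hxz hyz h5.symm).symm

theorem ot_comm (hX : Hex X) (hxy : X.Adj x y) (hxz : X.Adj x z) (hyz : X.Adj y z) :
    ot X x y z = ot X y x z := by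
  obtain ⟨⟨h3, h4⟩, h5⟩ := ot_spec hX hxy hxz hyz
  exact ot_unique hX hxy.symm hyz hxz h4 h3 h5

theorem flag_ext {f g : Flag X} (h1 : f.1.1 = g.1.1) (h2 : f.1.2.1 = g.1.2.1)
    (h3 : f.1.2.2 = g.1.2.2) : f = g :=
  Subtype.ext (Prod.ext h1 (Prod.ext h2 h3))

/-- the rotation around `x` -/
noncomputable def Rf (hX : Hex X) : Equiv.Perm (Flag X) where
  toFun := fun f => ⟨(f.1.1, f.1.2.2, ot X f.1.1 f.1.2.2 f.1.2.1), f.2.2.1,
    (ot_spec hX f.2.2.1 f.2.1 f.2.2.2.symm).1.1, (ot_spec hX f.2.2.1 f.2.1 f.2.2.2.symm).1.2⟩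
  invFun := fun f => ⟨(f.1.1, ot X f.1.1 f.1.2.1 f.1.2.2, f.1.2.1),
    (ot_spec hX f.2.1 f.2.2.1 f.2.2.2).1.1, f.2.1, (ot_spec hX f.2.1 f.2.2.1 f.2.2.2).1.2.symm⟩
  left_inv := fun f => flag_ext rfl (ot_ot hX f.2.2.1 f.2.1 f.2.2.2.symm) rfl
  right_inv := fun f => flag_ext rfl rfl (ot_ot hX f.2.1 f.2.2.1 f.2.2.2)

/-- the half turn around the middle of `x y`, as a function -/
noncomputable def Hfun (hX : Hex X) (f : Flag X) : Flag X :=
  ⟨(f.1.2.1, f.1.1, ot X f.1.1 f.1.2.1 f.1.2.2), f.2.1.symm,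
    (ot_spec hX f.2.1 f.2.2.1 f.2.2.2).1.2, (ot_spec hX f.2.1 f.2.2.1 f.2.2.2).1.1⟩

theorem Hfun_Hfun (hX : Hex X) (f : Flag X) : Hfun hX (Hfun hX f) = f := by
  refine flag_ext rfl rfl ?_
  have h := ot_spec hX f.2.1 f.2.2.1 f.2.2.2
  show ot X f.1.2.1 f.1.1 (ot X f.1.1 f.1.2.1 f.1.2.2) = f.1.2.2
  rw [← ot_comm hX f.2.1 h.1.1 h.1.2]
  exact ot_ot hX f.2.1 f.2.2.1 f.2.2.2

/-- the half turn around the middle of `x y` -/
noncomputable def Hf (hX : Hex X) : Equiv.Perm (Flag X) where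
  toFun := Hfun hX
  invFun := Hfun hX
  left_inv := Hfun_Hfun hX
  right_inv := Hfun_Hfun hX

/-- the reflection fixing `x` -/
def rho : Equiv.Perm (Flag X) where
  toFun := fun f => ⟨(f.1.1, f.1.2.2, f.1.2.1), f.2.2.1, f.2.1, f.2.2.2.symm⟩
  invFun := fun f => ⟨(f.1.1, f.1.2.2, f.1.2.1), f.2.2.1, f.2.1, f.2.2.2.symm⟩
  left_inv := fun _ => rfl
  right_inv := fun _ => rfl

theorem Hf_sq (hX : Hex X) : Hf hX ^ 2 = 1 := by
  ext1 f
  rw [pow_two]
  exact Hfun_Hfun hX f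

theorem RH1 (hX : Hex X) (g : Flag X) : ((Rf hX * Hf hX) g).1.1 = g.1.2.1 := rfl

theorem RH2 (hX : Hex X) (g : Flag X) :
    ((Rf hX * Hf hX) g).1.2.1 = ot X g.1.1 g.1.2.1 g.1.2.2 := rfl

theorem RH3 (hX : Hex X) (g : Flag X) :
    ((Rf hX * Hf hX) g).1.2.2 = ot X g.1.2.1 ((Rf hX * Hf hX) g).1.2.1 g.1.1 := rfl

theorem RH_cube (hX : Hex X) : (Rf hX * Hf hX) ^ 3 = 1 := by
  ext1 f
  have h1 := f.2.1
  have h2 := f.2.2.1
  have h3 := f.2.2.2
  have hz' := ot_spec hX h1 h2 h3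
  -- the three flags
  have e1 : ((Rf hX * Hf hX) ^ 3) f =
    (Rf hX * Hf hX) ((Rf hX * Hf hX) ((Rf hX * Hf hX) f)) := rfl
  rw [e1]
  have b1 : ((Rf hX * Hf hX) ((Rf hX * Hf hX) f)).1.2.1 = f.1.1 := by
    rw [RH2, RH1, RH3, RH2]
    exact ot_ot hX hz'.1.2 h1.symm hz'.1.1.symm
  have b2 : ((Rf hX * Hf hX) ((Rf hX * Hf hX) ((Rf hX * Hf hX) f))).1.2.1 = f.1.2.1 := by
    rw [RH2, b1, RH1, RH2, RH3, b1, RH2, RH1]
    exact ot_ot hX hz'.1.1.symm hz'.1.2.symm h1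
  refine flag_ext ?_ b2 ?_
  · rw [RH1, b1]
    rfl
  · rw [RH3, b2, b1, RH1, RH2]
    exact ot_ot hX h1 h2 h3

theorem rho_R (hX : Hex X) : SemiconjBy (rho (X := X)) (Rf hX) (Rf hX)⁻¹ := by
  unfold SemiconjBy
  ext1 f
  rfl

theorem rho_zpow (hX : Hex X) (a : ℤ) (g : Flag X) :
    rho ((Rf hX ^ a) g) = (Rf hX ^ (-a)) (rho g) := by
  have h1 := (rho_R hX).zpow_right a
  rw [inv_zpow, ← zpow_neg] at h1
  have h2 := congrArg (fun p : Equiv.Perm (Flag X) => p g) h1.eq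
  exact h2

/-- no reflection is a rotation -/
theorem no_refl (hX : Hex X) (a : ℤ) (g : Flag X) : (Rf hX ^ a) g ≠ rho g := by
  intro h
  obtain ⟨s, hs | hs⟩ := Int.even_or_odd' a
  · have h1 : (Rf hX ^ s) g = rho ((Rf hX ^ s) g) := by
      rw [rho_zpow, ← h, ← Equiv.Perm.mul_apply, ← zpow_add]
      congr 2
      omega
    have h2 := congrArg (fun f : Flag X => f.1.2.1) h1
    have h3 : ((Rf hX ^ s) g).1.2.1 = ((Rf hX ^ s) g).1.2.2 := h2
    exact X.ne_of_adj ((Rf hX ^ s) g).2.2.2 h3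
  · have h1 : Rf hX ((Rf hX ^ s) g) = rho ((Rf hX ^ s) g) := by
      rw [rho_zpow, ← h, ← Equiv.Perm.mul_apply, ← Equiv.Perm.mul_apply, ← zpow_add,
        ← zpow_one_add]
      congr 2
      omega
    have h2 := congrArg (fun f : Flag X => f.1.2.2) h1
    have h3 : ot X ((Rf hX ^ s) g).1.1 ((Rf hX ^ s) g).1.2.2 ((Rf hX ^ s) g).1.2.1 =
      ((Rf hX ^ s) g).1.2.1 := h2
    have h4 := ((Rf hX ^ s) g).2
    exact (ot_spec hX h4.2.1 h4.1 h4.2.2.symm).2 h3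

theorem base_zpow (hX : Hex X) (a : ℤ) (f : Flag X) : ((Rf hX ^ a) f).1.1 = f.1.1 := by
  induction a using Int.induction_on with
  | zero => rfl
  | succ i ih =>
    rw [zpow_add_one, ← (Commute.zpow_self (Rf hX) (i : ℤ)).eq.symm]
    show (Rf hX ((Rf hX ^ (i : ℤ)) f)).1.1 = _
    exact ih
  | pred i ih =>
    rw [zpow_sub_one, ((Commute.zpow_self (Rf hX) (-(i : ℤ))).inv_right).eq]
    show ((Rf hX)⁻¹ ((Rf hX ^ (-(i : ℤ))) f)).1.1 = _
    exact ih

/-- flags in the same orbit with the same second entry are equal -/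
theorem inj_orbit (hX : Hex X) (f : Flag X) (a b : ℤ)
    (h : ((Rf hX ^ a) f).1.2.1 = ((Rf hX ^ b) f).1.2.1) :
    (Rf hX ^ a) f = (Rf hX ^ b) f := by
  have hb1 := base_zpow hX a f
  have hb2 := base_zpow hX b f
  by_cases h1 : ((Rf hX ^ a) f).1.2.2 = ((Rf hX ^ b) f).1.2.2
  · exact flag_ext (hb1.trans hb2.symm) h h1
  · exfalso
    -- the second flag is the reflection of `R⁻¹` of the first one
    refine no_refl hX (b - a + 1) ((Rf hX)⁻¹ ((Rf hX ^ a) f)) ?_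
    have h2 : (Rf hX ^ (b - a + 1)) ((Rf hX)⁻¹ ((Rf hX ^ a) f)) = (Rf hX ^ b) f := by
      rw [← Equiv.Perm.mul_apply, ← Equiv.Perm.mul_apply, ← zpow_neg_one, ← zpow_add, ← zpow_add]
      congr 2
      omega
    rw [h2]
    have h3 := ((Rf hX ^ a) f).2
    have h4 := ((Rf hX ^ b) f).2
    have h5 : ((Rf hX ^ b) f).1.2.2 = ot X ((Rf hX ^ a) f).1.1 ((Rf hX ^ a) f).1.2.1
        ((Rf hX ^ a) f).1.2.2 := by
      refine ot_unique hX h3.1 h3.2.1 h3.2.2 ?_ ?_ (Ne.symm h1)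
      · rw [hb1, ← hb2]
        exact h4.2.1
      · rw [h]
        exact h4.2.2
    exact flag_ext (hb2.trans hb1.symm) h.symm h5

/-- the second entries of the orbit of `f` exhaust the neighbourhood -/
theorem surj_orbit (hX : Hex X) (f : Flag X) {w : V} (hw : X.Adj f.1.1 w) :
    ∃ a : ℤ, ((Rf hX ^ a) f).1.2.1 = w := by
  have hpre := (hX f.1.1).2.2
  have h0 : f.1.2.1 ∈ X.neighborSet f.1.1 := f.2.1
  have h1 := hpre ⟨f.1.2.1, h0⟩ ⟨w, hw⟩
  rw [SimpleGraph.reachable_iff_reflTransGen] at h1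
  have h2 : ∀ u : X.neighborSet f.1.1, Relation.ReflTransGen
      (X.induce (X.neighborSet f.1.1)).Adj ⟨f.1.2.1, h0⟩ u →
      ∃ a : ℤ, ((Rf hX ^ a) f).1.2.1 = u := by
    intro u hu
    induction hu with
    | refl => exact ⟨0, rfl⟩
    | @tail u v _ huv ih =>
      obtain ⟨a, ha⟩ := ih
      have hb := base_zpow hX a f
      have h3 := ((Rf hX ^ a) f).2
      have huv' : X.Adj (u : V) (v : V) := huv
      have hxv : X.Adj f.1.1 (v : V) := v.2
      by_cases h4 : (v : V) = ((Rf hX ^ a) f).1.2.2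
      · refine ⟨1 + a, ?_⟩
        rw [zpow_add, zpow_one, Equiv.Perm.mul_apply]
        exact h4.symm
      · refine ⟨-1 + a, ?_⟩
        rw [zpow_add, zpow_neg_one, Equiv.Perm.mul_apply]
        have h5 : (v : V) = ot X ((Rf hX ^ a) f).1.1 ((Rf hX ^ a) f).1.2.1
            ((Rf hX ^ a) f).1.2.2 := by
          refine ot_unique hX h3.1 h3.2.1 h3.2.2 ?_ ?_ h4
          · rw [hb]
            exact hxv
          · rw [ha]
            exact huv'
        exact h5.symm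
  exact h2 ⟨w, hw⟩ h1

theorem R_pow_six [Finite V] (hX : Hex X) : Rf hX ^ 6 = 1 := by
  classical
  ext1 f
  haveI : Finite (Flag X) := Subtype.finite
  haveI := Fintype.ofFinite (Flag X)
  haveI : Fintype (MulAction.orbit (Subgroup.zpowers (Rf hX)) f) := Fintype.ofFinite _
  have h1 := MulAction.minimalPeriod_eq_card (a := Rf hX) (b := f)
  have h2 : Fintype.card (MulAction.orbit (Subgroup.zpowers (Rf hX)) f) = 6 := by
    have h3 : Nat.card (MulAction.orbit (Subgroup.zpowers (Rf hX)) f) =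
        Nat.card (X.neighborSet f.1.1) := by
      have hmem : ∀ g : MulAction.orbit (Subgroup.zpowers (Rf hX)) f,
          ∃ a : ℤ, (g : Flag X) = (Rf hX ^ a) f := by
        rintro ⟨g, ⟨⟨p, hp⟩, rfl⟩⟩
        obtain ⟨a, rfl⟩ := Subgroup.mem_zpowers_iff.1 hp
        exact ⟨a, rfl⟩
      refine Nat.card_eq_of_bijective (fun g => ⟨g.1.1.2.1, ?_⟩) ⟨?_, ?_⟩
      · obtain ⟨a, ha⟩ := hmem g
        have hb := base_zpow hX a f
        show X.Adj f.1.1 g.1.1.2.1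
        rw [← hb, ha]
        exact ((Rf hX ^ a) f).2.1
      · intro g g' hgg
        obtain ⟨a, ha⟩ := hmem g
        obtain ⟨b, hb⟩ := hmem g'
        apply Subtype.ext
        rw [ha, hb]
        apply inj_orbit hX f a b
        have := congrArg Subtype.val hgg
        simp only at this
        rw [ha, hb] at this
        exact this
      · rintro ⟨w, hw⟩
        obtain ⟨a, ha⟩ := surj_orbit hX f hw
        refine ⟨⟨(Rf hX ^ a) f, ⟨⟨Rf hX ^ a, Subgroup.mem_zpowers_iff.2 ⟨a, rfl⟩⟩, rfl⟩⟩, ?_⟩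
        exact Subtype.ext ha
    rw [← Nat.card_eq_fintype_card, h3, Nat.card_coe_set_eq]
    exact (hX f.1.1).1
  rw [h2] at h1
  have h4 := Function.iterate_minimalPeriod (f := fun g : Flag X => Rf hX • g) (x := f)
  rw [h1] at h4
  have h5 : (Rf hX ^ 6) f = (fun g : Flag X => Rf hX • g)^[6] f := rfl
  rw [h5, h4]
  rfl

end HEXB_

open HEXB_

theorem hexb_proof : Stmt_HEXB := by
  intro V _ X hX
  refine ⟨Rf hX, Hf hX, R_pow_six hX, Hf_sq hX, RH_cube hX, fun f => rfl, fun f => rfl, ?_⟩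
  intro f w hw
  obtain ⟨a, ha⟩ := surj_orbit hX f hw
  refine ⟨(a % 6).toNat, ?_⟩
  have h1 : Rf hX ^ (a % 6).toNat = Rf hX ^ a := by
    have h2 : (Rf hX ^ (a % 6).toNat : Equiv.Perm (Flag X)) = Rf hX ^ (a % 6) := by
      rw [← zpow_natCast, Int.toNat_of_nonneg (Int.emod_nonneg a (by norm_num))]
    have h3 : Rf hX ^ a = Rf hX ^ (a % 6) * (Rf hX ^ (6 : ℤ)) ^ (a / 6) := by
      rw [← zpow_mul, ← zpow_add, Int.emod_add_mul_ediv]
    have h4 : Rf hX ^ (6 : ℤ) = 1 := by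
      have := R_pow_six hX
      exact_mod_cast this
    rw [h2, h3, h4, one_zpow, mul_one]
  rw [h1]
  exact ha

end Pool.HRG
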