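import Pool.Agent.HRG.Stmts

set_option autoImplicit false

/-!
# Module HEXC: growth from the flag rotations
-/

namespace Pool.HRG

namespace HEXC_

section grp

variable {G : Type*} [Group G] (a b : G)

theorem binv (h2 : b ^ 2 = 1) : b⁻¹ = b := by
  rw [inv_eq_iff_mul_eq_one, ← sq]
  exact h2

theorem key (h2 : b ^ 2 = 1) (h3 : (a * b) ^ 3 = 1) : a * b * a = b * a⁻¹ * b := by
  have h : a * b * a * b * a * b = 1 := by
    rw [← h3]
    simp only [pow_succ, pow_zero, one_mul, mul_assoc]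
  calc a * b * a = (a * b * a * b * a * b) * (b⁻¹ * a⁻¹ * b⁻¹) := by group
    _ = b⁻¹ * a⁻¹ * b⁻¹ := by rw [h, one_mul]
    _ = b * a⁻¹ * b := by rw [binv b h2]

theorem key' (h2 : b ^ 2 = 1) (h3 : (a * b) ^ 3 = 1) : b * a * b = a⁻¹ * b * a⁻¹ := by
  have h := congrArg (fun x => x⁻¹) (key a b h2 h3)
  simp only [mul_inv_rev, inv_inv, binv b h2] at h
  rw [mul_assoc, ← h, mul_assoc]

/-- `T0` -/
def T0 : G := a ^ 3 * b
/-- `T2` -/
def T2 : G := a⁻¹ * b * a ^ 4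

theorem T0inv (h6 : a ^ 6 = 1) (h2 : b ^ 2 = 1) : (T0 a b)⁻¹ = b * a ^ 3 := by
  have h : a ^ 3 * a ^ 3 = 1 := by rw [← pow_add]; exact h6
  rw [inv_eq_iff_mul_eq_one]
  unfold T0
  calc a ^ 3 * b * (b * a ^ 3) = a ^ 3 * (b ^ 2) * a ^ 3 := by
        rw [sq]; simp only [mul_assoc]
    _ = 1 := by rw [h2, mul_one, h]

theorem T2inv (h6 : a ^ 6 = 1) (h2 : b ^ 2 = 1) : (T2 a b)⁻¹ = a ^ 2 * b * a := by
  rw [inv_eq_iff_mul_eq_one]
  unfold T2
  calc a⁻¹ * b * a ^ 4 * (a ^ 2 * b * a) = a⁻¹ * b * a ^ 6 * b * a := by group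
    _ = a⁻¹ * (b ^ 2) * a := by rw [h6, sq]; simp only [mul_assoc, one_mul]
    _ = 1 := by rw [h2]; group

theorem comm (h6 : a ^ 6 = 1) (h2 : b ^ 2 = 1) (h3 : (a * b) ^ 3 = 1) :
    Commute (T0 a b) (T2 a b) := by
  have hk := key a b h2 h3
  have hk' := key' a b h2 h3
  show T0 a b * T2 a b = T2 a b * T0 a b
  unfold T0 T2
  calc a ^ 3 * b * (a⁻¹ * b * a ^ 4) = a ^ 3 * (b * a⁻¹ * b) * a ^ 4 := by group
    _ = a ^ 3 * (a * b * a) * a ^ 4 := by rw [hk]
    _ = a⁻¹ * a⁻¹ * a ^ 6 * b * (a⁻¹ * a ^ 6) := by group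
    _ = a⁻¹ * (a⁻¹ * b * a⁻¹) := by rw [h6]; group
    _ = a⁻¹ * (b * a * b) := by rw [hk']
    _ = a⁻¹ * b * (a * 1) * b := by group
    _ = a⁻¹ * b * (a * a ^ 6) * b := by rw [h6]
    _ = a⁻¹ * b * a ^ 4 * (a ^ 3 * b) := by group

theorem step (h6 : a ^ 6 = 1) (h2 : b ^ 2 = 1) (h3 : (a * b) ^ 3 = 1) (k : ℕ) :
    ∃ i j : ℤ, |i| ≤ 1 ∧ |j| ≤ 1 ∧ (a ^ k)⁻¹ * T0 a b * a ^ k = T0 a b ^ i * T2 a b ^ j := by
  have hk := key a b h2 h3
  have hred : a ^ k = a ^ (k % 6) := by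
    conv_lhs => rw [← Nat.div_add_mod k 6]
    rw [pow_add, pow_mul, h6, one_pow, one_mul]
  rw [hred]
  have hlt : k % 6 < 6 := Nat.mod_lt _ (by norm_num)
  generalize k % 6 = m at hlt
  have hT0 := T0inv a b h6 h2
  have hT2 := T2inv a b h6 h2
  interval_cases m
  · exact ⟨1, 0, by norm_num, by norm_num, by simp⟩
  · refine ⟨0, -1, by norm_num, by norm_num, ?_⟩
    rw [zpow_zero, one_mul, zpow_neg_one, hT2]
    unfold T0
    group
  · refine ⟨-1, -1, by norm_num, by norm_num, ?_⟩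
    rw [zpow_neg_one, zpow_neg_one, hT0, hT2]
    unfold T0
    calc (a ^ 2)⁻¹ * (a ^ 3 * b) * a ^ 2 = a * b * a ^ 2 := by group
      _ = (a * b * a) * a := by rw [sq]; simp only [mul_assoc]
      _ = b * a⁻¹ * b * a := by rw [hk]
      _ = b * (a⁻¹ * 1) * b * a := by group
      _ = b * (a⁻¹ * a ^ 6) * b * a := by rw [h6]
      _ = b * a ^ 3 * (a ^ 2 * b * a) := by group
  · refine ⟨-1, 0, by norm_num, by norm_num, ?_⟩
    rw [zpow_neg_one, zpow_zero, mul_one, hT0]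
    unfold T0
    group
  · refine ⟨0, 1, by norm_num, by norm_num, ?_⟩
    rw [zpow_zero, one_mul, zpow_one]
    unfold T0 T2
    group
  · refine ⟨1, 1, by norm_num, by norm_num, ?_⟩
    rw [zpow_one, zpow_one]
    unfold T0 T2
    calc (a ^ 5)⁻¹ * (a ^ 3 * b) * a ^ 5 = (a⁻¹ * a⁻¹ * 1) * b * a ^ 5 := by group
      _ = (a⁻¹ * a⁻¹ * a ^ 6) * b * a ^ 5 := by rw [h6]
      _ = a ^ 3 * (a * b * a) * a ^ 4 := by group
      _ = a ^ 3 * (b * a⁻¹ * b) * a ^ 4 := by rw [hk]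
      _ = a ^ 3 * b * (a⁻¹ * b * a ^ 4) := by group

end grp

theorem base_pow {V F : Type} (base : F → V) (R : Equiv.Perm F)
    (hb : ∀ f, base (R f) = base f) (k : ℕ) (f : F) : base ((R ^ k) f) = base f := by
  induction k with
  | zero => rfl
  | succ n ih =>
    rw [pow_succ', Equiv.Perm.mul_apply, hb, ih]

theorem base_pow_inv {V F : Type} (base : F → V) (R : Equiv.Perm F)
    (hb : ∀ f, base (R f) = base f) (k : ℕ) (f : F) : base (((R ^ k)⁻¹ : Equiv.Perm F) f) = base f := by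
  have h := base_pow base R hb k (((R ^ k)⁻¹ : Equiv.Perm F) f)
  rw [← h, ← Equiv.Perm.mul_apply, mul_inv_cancel, Equiv.Perm.one_apply]

end HEXC_

open HEXC_ in
theorem hexc_proof : Stmt_HEXC := by
  intro V F _ X base nxt R H h6 h2 h3 hR hH hN f r
  have hcov : ∀ r : ℕ, ∀ u ∈ ball X (base f) r, ∃ i j : ℤ, |i| ≤ r ∧ |j| ≤ r ∧
      u = base ((T0 R H ^ i * T2 R H ^ j) f) := by
    intro r
    induction r with
    | zero =>
      intro u hu
      have hu' : u = base f := hu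
      exact ⟨0, 0, by simp, by simp, by rw [hu']; simp⟩
    | succ n ih =>
      intro u hu
      rcases hu with hu | ⟨v, hv, hadj⟩
      · obtain ⟨i, j, hi, hj, h⟩ := ih u hu
        refine ⟨i, j, ?_, ?_, h⟩ <;> push_cast <;> linarith
      · obtain ⟨i, j, hi, hj, h⟩ := ih v hv
        set g := (T0 R H ^ i * T2 R H ^ j) f with hg
        rw [h] at hadj
        obtain ⟨k, hk⟩ := hN g u hadj
        obtain ⟨i', j', hi', hj', hstep⟩ := step R H h6 h2 h3 k
        have h1 : u = base (((R ^ k)⁻¹ * T0 R H * R ^ k) g) := by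
          rw [← hk, ← hH, mul_assoc, Equiv.Perm.mul_apply, base_pow_inv base R hR,
            Equiv.Perm.mul_apply]
          unfold T0
          rw [Equiv.Perm.mul_apply, base_pow base R hR]
        refine ⟨i' + i, j' + j, ?_, ?_, ?_⟩
        · have := abs_add_le i' i
          push_cast
          linarith
        · have := abs_add_le j' j
          push_cast
          linarith
        · rw [h1, hstep, hg, ← Equiv.Perm.mul_apply]
          congr 2
          have hc := comm R H h6 h2 h3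
          have hc' : T2 R H ^ j' * T0 R H ^ i = T0 R H ^ i * T2 R H ^ j' :=
            ((hc.zpow_zpow i j').eq).symm
          rw [zpow_add, zpow_add]
          calc T0 R H ^ i' * T2 R H ^ j' * (T0 R H ^ i * T2 R H ^ j)
              = T0 R H ^ i' * (T2 R H ^ j' * T0 R H ^ i) * T2 R H ^ j := by group
            _ = T0 R H ^ i' * (T0 R H ^ i * T2 R H ^ j') * T2 R H ^ j := by rw [hc']
            _ = T0 R H ^ i' * T0 R H ^ i * (T2 R H ^ j' * T2 R H ^ j) := by group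
  have hsub : ball X (base f) r ⊆
      ((Finset.Icc (-(r : ℤ)) r ×ˢ Finset.Icc (-(r : ℤ)) r : Finset (ℤ × ℤ)) : Set (ℤ × ℤ)).image
        (fun p => base ((T0 R H ^ p.1 * T2 R H ^ p.2) f)) := by
    intro u hu
    obtain ⟨i, j, hi, hj, h⟩ := hcov r u hu
    refine ⟨(i, j), ?_, h.symm⟩
    rw [Finset.mem_coe, Finset.mem_product, Finset.mem_Icc, Finset.mem_Icc]
    exact ⟨abs_le.1 hi, abs_le.1 hj⟩
  refine le_trans (Set.ncard_le_ncard hsub ((Finset.finite_toSet _).image _)) ?_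
  refine le_trans (Set.ncard_image_le (Finset.finite_toSet _)) ?_
  rw [Set.ncard_coe_finset, Finset.card_product, Int.card_Icc]
  have h1 : ((r : ℤ) + 1 - -(r : ℤ)).toNat = 2 * r + 1 := by omega
  rw [h1]
  nlinarith

end Pool.HRG
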