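import Pool.Agent.HRG.Stmts

/-!
# INC: the inclusions
-/

namespace Pool.HRG

namespace INC_

theorem inf_mono {P Q : ∀ {V : Type}, SimpleGraph V → Prop}
    (h : ∀ {V : Type} [Finite V] (X : SimpleGraph V), P X → Q X) (hP : InfMany P) : InfMany Q := by
  obtain ⟨V, X, h1, h2, h3⟩ := hP
  exact ⟨V, X, h1, fun k => @h _ (h1 k) _ (h2 k), h3⟩

theorem conn_of {e : Prop} {n : ℕ} {a : Fin n → ℕ} (hn : 1 ≤ n) {V : Type} {X : SimpleGraph V}
    (h : IsCReg e n a X) : Conn e X := by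
  have h1 := h.2 ∅ (by simp) (by simpa using Nat.lt_of_succ_le hn)
  have hs : ∀ v : V, v ∈ sph X ((∅ : Finset V) : Set V) := by
    intro v
    exact ⟨by simp, by simp⟩
  refine ⟨?_, ?_⟩
  · intro x y
    obtain ⟨w⟩ := h1.1 ⟨x, hs x⟩ ⟨y, hs y⟩
    exact ⟨w.map (SimpleGraph.Embedding.induce _).toHom⟩
  · rcases h1.2 with ⟨⟨v, _⟩⟩ | h2
    · exact Or.inl ⟨v⟩
    · exact Or.inr h2

theorem iso_of_subsingleton {V W : Type} (X : SimpleGraph V) (Y : SimpleGraph W)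
    (hV : Subsingleton V) (hW : Subsingleton W) (h : Nonempty V ↔ Nonempty W) :
    Nonempty (X ≃g Y) := by
  by_cases hne : Nonempty V
  · obtain ⟨v⟩ := hne
    obtain ⟨w⟩ := h.1 ⟨v⟩
    refine ⟨⟨⟨fun _ => w, fun _ => v, fun _ => Subsingleton.elim _ _,
      fun _ => Subsingleton.elim _ _⟩, ?_⟩⟩
    intro x y
    have h1 : x = y := Subsingleton.elim _ _
    subst h1
    simp
  · have hne' : ¬ Nonempty W := fun h' => hne (h.2 h')
    have hVe : IsEmpty V := not_nonempty_iff.1 hne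
    have hWe : IsEmpty W := not_nonempty_iff.1 hne'
    exact ⟨⟨Equiv.equivOfIsEmpty V W, fun {x} => isEmptyElim x⟩⟩

theorem pos_of (h3 : Stmt_BAS3) {n : ℕ} {a : Fin (n + 1) → ℕ} {ε : ℝ} (hε : 0 < ε)
    (h : InfMany (fun X => IsReg (n + 1) a X ∧ CheegerGE X ε)) : a 0 ≠ 0 := by
  intro ha
  obtain ⟨V, X, h1, h2, h4⟩ := h
  have hsub : ∀ k, Subsingleton (V k) := by
    intro k
    have hfin := h1 k
    have hpre := h3 (X k) ε hε (h2 k).2
    have hd : Deg (X k) (a 0) := (h2 k).1.1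
    refine ⟨fun x y => ?_⟩
    by_contra hxy
    obtain ⟨w⟩ := hpre x y
    have hx := hd.1 x
    rw [ha, Set.ncard_eq_zero (Set.toFinite _)] at hx
    cases w with
    | nil => exact hxy rfl
    | cons hadj _ =>
      have : _ ∈ (X k).neighborSet x := hadj
      rw [hx] at this
      exact this
  have key : ∀ i j, i ≠ j → ¬ (Nonempty (V i) ↔ Nonempty (V j)) := by
    intro i j hij hiff
    obtain ⟨f⟩ := iso_of_subsingleton (X i) (X j) (hsub i) (hsub j) hiff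
    exact (h4 i j hij).elim f
  have k01 := key 0 1 (by norm_num)
  have k02 := key 0 2 (by norm_num)
  have k12 := key 1 2 (by norm_num)
  tauto

end INC_

open INC_ in
theorem inc_proof (h3 : Stmt_BAS3) : Stmt_INC := by
  intro e n hn
  refine ⟨?_, ?_, ?_, ?_, ?_, ?_, ?_⟩
  · rintro a ⟨ε, _, h⟩
    show InfMany (fun X => IsCReg e n a X)
    exact inf_mono (P := fun X => IsCReg e n a X ∧ CheegerGE X ε) (Q := fun X => IsCReg e n a X)
      (fun {V} _ X hX => hX.1) h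
  · rintro a ⟨V, X, h1, h2, _⟩
    exact ⟨V 0, X 0, h1 0, h2 0⟩
  · rintro a ⟨ε, hε, h⟩
    obtain ⟨m, rfl⟩ : ∃ m, n = m + 1 := ⟨n - 1, by omega⟩
    have ha := pos_of h3 hε h
    show InfMany (fun X => Conn e X ∧ IsReg (m + 1) a X)
    refine inf_mono (P := fun X => IsReg (m + 1) a X ∧ CheegerGE X ε)
      (Q := fun X => Conn e X ∧ IsReg (m + 1) a X) (fun {V} _ X hX => ?_) h
    refine ⟨⟨h3 X ε hε hX.2, Or.inl ?_⟩, hX.1⟩
    by_contra hne
    exact ha (hX.1.1.2 (not_nonempty_iff.1 hne))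
  · rintro a ⟨V, X, h1, h2, _⟩
    exact ⟨V 0, X 0, h1 0, h2 0⟩
  · rintro a ⟨ε, hε, h⟩
    exact ⟨ε, hε, inf_mono (P := fun X => IsCReg e n a X ∧ CheegerGE X ε)
      (Q := fun X => IsReg n a X ∧ CheegerGE X ε) (fun {V} _ X hX => ⟨hX.1.1, hX.2⟩) h⟩
  · rintro a h
    show InfMany (fun X => Conn e X ∧ IsReg n a X)
    exact inf_mono (P := fun X => IsCReg e n a X) (Q := fun X => Conn e X ∧ IsReg n a X)
      (fun {V} _ X hX => ⟨conn_of hn hX, hX.1⟩) h
  · rintro a ⟨V, X, h1, h2⟩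
    exact ⟨V, X, h1, conn_of hn h2, h2.1⟩

end Pool.HRG
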