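import Pool.Agent.HRG.Stmts

/-!
# Module KN (complete graphs)
-/

namespace Pool.HRG

namespace KN_

theorem sph_single {V : Type} (X : SimpleGraph V) (v : V) :
    sph X {v} = X.neighborSet v := by
  ext w
  constructor
  · intro h
    exact h.2 v rfl
  · intro h
    refine ⟨?_, ?_⟩
    · intro hw
      have hw' : w = v := hw
      subst hw'
      exact X.loopless.irrefl _ h
    · intro c hc
      have hc' : c = v := hc
      subst hc'
      exact h

theorem card_le {V : Type} [Finite V] (X : SimpleGraph V) (m : ℕ) (hp : X.Preconnected)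
    (hr : IsReg (m + 2) (aK (m + 2)) X) : Nat.card V ≤ m + 3 := by
  classical
  obtain ⟨⟨hd, -⟩, hs⟩ := hr
  rcases isEmpty_or_nonempty V with hV | ⟨⟨v⟩⟩
  · rw [Nat.card_eq_zero.mpr (Or.inl hV)]
    omega
  have hd' : ∀ u, (X.neighborSet u).ncard = m + 2 := hd
  have hdv := hd' v
  -- every neighbour of `v` is adjacent to every other neighbour
  have key : ∀ u ∈ X.neighborSet v, ∀ w ∈ X.neighborSet v, w ≠ u → X.Adj u w := by
    intro u hu w hw hwu
    by_contra hn
    obtain ⟨⟨h1, -⟩, -⟩ := hs v
    have hu' : u ∈ sph X {v} := by rw [sph_single]; exact hu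
    have h2 := h1 ⟨u, hu'⟩
    have h3 : ((X.induce (sph X {v})).neighborSet ⟨u, hu'⟩).ncard
        = (Subtype.val '' ((X.induce (sph X {v})).neighborSet ⟨u, hu'⟩)).ncard :=
      (Set.ncard_image_of_injective _ Subtype.val_injective).symm
    have h4 : (Subtype.val '' ((X.induce (sph X {v})).neighborSet ⟨u, hu'⟩))
        ⊆ (X.neighborSet v \ {u}) \ {w} := by
      rintro x ⟨⟨y, hy⟩, hyx, rfl⟩
      have hadj : X.Adj u y := hyx
      refine ⟨⟨?_, ?_⟩, ?_⟩
      · rw [sph_single] at hy
        exact hy
      · intro h
        have h' : y = u := h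
        subst h'
        exact X.loopless.irrefl _ hadj
      · intro h
        have h' : y = w := h
        subst h'
        exact hn hadj
    have h5 := Set.ncard_le_ncard h4 (Set.toFinite _)
    have h6 : (X.neighborSet v \ {u}).ncard = m + 1 := by
      rw [Set.ncard_sdiff_singleton_of_mem hu, hdv]
      rfl
    have h7 : ((X.neighborSet v \ {u}) \ {w}).ncard = m := by
      rw [Set.ncard_sdiff_singleton_of_mem (show w ∈ X.neighborSet v \ {u} from ⟨hw, hwu⟩), h6]
      rfl
    have h8 : ((X.induce (sph X {v})).neighborSet ⟨u, hu'⟩).ncard = m + 1 := h2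
    omega
  -- the closed neighbourhood is closed under adjacency
  have hcl : ∀ u ∈ X.neighborSet v, ∀ w, X.Adj u w → w = v ∨ w ∈ X.neighborSet v := by
    intro u hu w hw
    have hsub : insert v (X.neighborSet v \ {u}) ⊆ X.neighborSet u := by
      intro x hx
      rcases hx with hx | hx
      · rw [hx]
        exact SimpleGraph.Adj.symm hu
      · exact key u hu x hx.1 hx.2
    have hvn : v ∉ X.neighborSet v \ {u} := fun h => X.loopless.irrefl _ h.1
    have hc1 : (insert v (X.neighborSet v \ {u})).ncard = m + 2 := by
      rw [Set.ncard_insert_of_notMem hvn (Set.toFinite _),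
        Set.ncard_sdiff_singleton_of_mem hu, hdv]
      rfl
    have heq : insert v (X.neighborSet v \ {u}) = X.neighborSet u :=
      Set.eq_of_subset_of_ncard_le hsub (by rw [hc1, hd' u]) (Set.toFinite _)
    have hw' : w ∈ insert v (X.neighborSet v \ {u}) := by
      rw [heq]
      exact hw
    rcases hw' with h | h
    · exact Or.inl h
    · exact Or.inr h.1
  have hall : ∀ w, w = v ∨ w ∈ X.neighborSet v := by
    intro w
    obtain ⟨p⟩ := hp v w
    have : ∀ (a b : V) (q : X.Walk a b), (a = v ∨ a ∈ X.neighborSet v) →
        (b = v ∨ b ∈ X.neighborSet v) := by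
      intro a b q
      induction q with
      | nil => exact fun h => h
      | cons hab _ ih =>
        intro h
        apply ih
        rcases h with h | h
        · subst h
          exact Or.inr hab
        · exact hcl _ h _ hab
    exact this v w p (Or.inl rfl)
  have huniv : (Set.univ : Set V) ⊆ insert v (X.neighborSet v) := by
    intro w _
    rcases hall w with h | h
    · exact Or.inl h
    · exact Or.inr h
  have h9 := Set.ncard_le_ncard huniv (Set.toFinite _)
  have h10 := Set.ncard_insert_le v (X.neighborSet v)
  rw [Set.ncard_univ] at h9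
  omega

end KN_

theorem kn1_proof (h : Stmt_CLQ) : Stmt_KN1 := by
  classical
  intro e n hn
  refine ⟨Fin (n + 1), (⊤ : SimpleGraph (Fin (n + 1))), inferInstance, ?_, ?_⟩
  · have h1 := h n n le_rfl (⊤ : SimpleGraph (Fin (n + 1))) ?_ ?_
    · exact h1
    · intro v
      have : (⊤ : SimpleGraph (Fin (n + 1))).neighborSet v = Set.univ \ {v} := by
        ext w
        constructor
        · intro hw
          exact ⟨trivial, fun h' => hw (show v = w from (show w = v from h').symm)⟩
        · intro hw
          exact fun h' : v = w => hw.2 (show w = v from h'.symm)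
      rw [this, Set.ncard_sdiff_singleton_of_mem (Set.mem_univ v), Set.ncard_univ, Nat.card_fin]
      rfl
    · intro v x y _ _ hxy
      exact hxy
  · intro C _ hC
    refine ⟨?_, Or.inl ?_⟩
    · intro x y
      by_cases hxy : x = y
      · rw [hxy]
      · apply SimpleGraph.Adj.reachable
        intro h'
        exact hxy (Subtype.ext h')
    · have hlt : C.card < Fintype.card (Fin (n + 1)) := by
        rw [Fintype.card_fin]
        omega
      obtain ⟨w, hw⟩ : ∃ w, w ∉ C := by
        by_contra hcon
        push Not at hcon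
        have : C = Finset.univ := Finset.eq_univ_iff_forall.mpr hcon
        rw [this, Finset.card_univ] at hlt
        exact lt_irrefl _ hlt
      refine ⟨⟨w, ?_⟩⟩
      refine ⟨fun h' => hw h', ?_⟩
      intro c hc h'
      apply hw
      have h2 : c = w := h'
      rw [← h2]
      exact hc

theorem kn2_proof (h : Stmt_FAM2) : Stmt_KN2 := by
  intro e n hn hmem
  obtain ⟨V, X, hfin, hP, hiso⟩ := hmem
  obtain ⟨m, rfl⟩ : ∃ m, n = m + 2 := ⟨n - 2, by omega⟩
  obtain ⟨k, hk⟩ := h V X hfin hiso (m + 3)
  have := hfin k
  have := KN_.card_le (X k) m (hP k).1.1 (hP k).2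
  omega

end Pool.HRG
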