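import Pool.Agent.HRG.Stmts

/-!
# HRG, module LGA: line graphs of triangle-free regular graphs
-/

namespace Pool.HRG

namespace LGA_

variable {V : Type} (X : SimpleGraph V)

/-- the edges at a vertex -/
def E (x : V) : Set X.edgeSet := {p | x ∈ (p : Sym2 V)}

theorem card_E (n : ℕ) (h : ∀ v, (X.neighborSet v).ncard = n) (x : V) : (E X x).ncard = n := by
  let φ : X.neighborSet x → X.edgeSet := fun w => ⟨s(x, w.1), w.2⟩
  have hinj : Function.Injective φ := by
    intro a b hab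
    have h1 : s(x, a.1) = s(x, b.1) := congrArg Subtype.val hab
    exact Subtype.ext (Sym2.congr_right.1 h1)
  have hr : Set.range φ = E X x := by
    ext p
    constructor
    · rintro ⟨w, rfl⟩
      exact Sym2.mem_mk_left _ _
    · intro hp
      obtain ⟨p, hp'⟩ := p
      obtain ⟨w, rfl⟩ := Sym2.mem_iff_exists.1 hp
      exact ⟨⟨w, hp'⟩, rfl⟩
  rw [← hr, ← Nat.card_coe_set_eq, Nat.card_range_of_injective hinj, Nat.card_coe_set_eq, h x]

theorem common {x : V} {e f g : X.edgeSet} (hT : TriFree X) (hef : e ≠ f) (hxe : x ∈ (e : Sym2 V))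
    (hxf : x ∈ (f : Sym2 V)) (h1 : ∃ v, v ∈ (e : Sym2 V) ∧ v ∈ (g : Sym2 V))
    (h2 : ∃ v, v ∈ (f : Sym2 V) ∧ v ∈ (g : Sym2 V)) : x ∈ (g : Sym2 V) := by
  by_contra hx
  obtain ⟨v, hve, hvg⟩ := h1
  obtain ⟨w, hwf, hwg⟩ := h2
  have hxv : x ≠ v := fun h => hx (h ▸ hvg)
  have hxw : x ≠ w := fun h => hx (h ▸ hwg)
  have he : (e : Sym2 V) = s(x, v) := (Sym2.mem_and_mem_iff hxv).1 ⟨hxe, hve⟩
  have hf : (f : Sym2 V) = s(x, w) := (Sym2.mem_and_mem_iff hxw).1 ⟨hxf, hwf⟩
  have hvw : v ≠ w := by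
    rintro rfl
    exact hef (Subtype.ext (he.trans hf.symm))
  have hg : (g : Sym2 V) = s(v, w) := (Sym2.mem_and_mem_iff hvw).1 ⟨hvg, hwg⟩
  have a1 : X.Adj x v := by
    have := e.2
    rw [he] at this
    exact this
  have a2 : X.Adj x w := by
    have := f.2
    rw [hf] at this
    exact this
  have a3 : X.Adj v w := by
    have := g.2
    rw [hg] at this
    exact this
  exact hT x v w a1 a3 a2

theorem mem_sph (e f : X.edgeSet) : f ∈ sph (LG X) {e} ↔ (LG X).Adj e f := by
  constructor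
  · rintro ⟨-, h⟩
    exact h e rfl
  · intro h
    refine ⟨fun h' => h.1 (Set.mem_singleton_iff.1 h').symm, fun c hc => ?_⟩
    rw [Set.mem_singleton_iff.1 hc]
    exact h

theorem deg [Finite V] (n : ℕ) (h : ∀ v, (X.neighborSet v).ncard = n + 1) (e : X.edgeSet) :
    ((LG X).neighborSet e).ncard = 2 * n := by
  obtain ⟨e, he⟩ := e
  induction e using Sym2.inductionOn with
  | hf x y =>
    have hxy : x ≠ y := (show X.Adj x y from he).ne
    set e' : X.edgeSet := ⟨s(x, y), he⟩ with he'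
    have h1 : (LG X).neighborSet e' = (E X x \ {e'}) ∪ (E X y \ {e'}) := by
      ext f
      rw [SimpleGraph.mem_neighborSet]
      constructor
      · rintro ⟨hne, v, hv, hvf⟩
        rcases Sym2.mem_iff.1 (show v ∈ s(x, y) from hv) with rfl | rfl
        · exact Or.inl ⟨hvf, fun h => hne (Set.mem_singleton_iff.1 h).symm⟩
        · exact Or.inr ⟨hvf, fun h => hne (Set.mem_singleton_iff.1 h).symm⟩
      · rintro (⟨hvf, hne⟩ | ⟨hvf, hne⟩)
        · exact ⟨fun h => hne (Set.mem_singleton_iff.2 h.symm), x, Sym2.mem_mk_left _ _, hvf⟩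
        · exact ⟨fun h => hne (Set.mem_singleton_iff.2 h.symm), y, Sym2.mem_mk_right _ _, hvf⟩
    have hdisj : Disjoint (E X x \ {e'}) (E X y \ {e'}) := by
      rw [Set.disjoint_left]
      rintro f ⟨hx, hne⟩ ⟨hy, -⟩
      apply hne
      rw [Set.mem_singleton_iff]
      exact Subtype.ext ((Sym2.mem_and_mem_iff hxy).1 ⟨hx, hy⟩)
    rw [h1, Set.ncard_union_eq hdisj (Set.toFinite _) (Set.toFinite _),
      Set.ncard_diff_singleton_of_mem (show e' ∈ E X x from Sym2.mem_mk_left _ _),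
      Set.ncard_diff_singleton_of_mem (show e' ∈ E X y from Sym2.mem_mk_right _ _),
      card_E X _ h, card_E X _ h]
    omega

theorem nbr [Finite V] (hT : TriFree X) (e : X.edgeSet)
    (f g : sph (LG X) {e}) (x : V) (hxe : x ∈ (e : Sym2 V)) (hxf : x ∈ (f.1 : Sym2 V)) :
    ((LG X).induce (sph (LG X) {e})).Adj f g ↔ x ∈ (g.1 : Sym2 V) ∧ g.1 ≠ f.1 := by
  have hf := (mem_sph X e f.1).1 f.2
  have hg := (mem_sph X e g.1).1 g.2
  rw [SimpleGraph.induce_adj]
  constructor
  · rintro ⟨hne, h1⟩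
    exact ⟨common X hT hf.1 hxe hxf hg.2 h1, fun h => hne h.symm⟩
  · rintro ⟨h1, h2⟩
    exact ⟨fun h => h2 h.symm, x, hxf, h1⟩

end LGA_

open LGA_ in
theorem lga_proof (hCLQ : Stmt_CLQ) : Stmt_LGA := by
  intro n hn V _ _ X hX hT
  obtain ⟨m, rfl⟩ : ∃ m, n = m + 1 := ⟨n - 1, by omega⟩
  refine ⟨⟨fun e => ?_, fun hemp => ?_⟩, fun e => ?_⟩
  · rw [deg X (m + 1) hX e]
    simp [aL]
  · exfalso
    obtain ⟨v⟩ := (inferInstance : Nonempty V)
    have h1 := hX v
    have h2 : (X.neighborSet v).Nonempty := by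
      rw [← Set.ncard_pos (Set.toFinite _), h1]
      omega
    obtain ⟨w, hw⟩ := h2
    exact hemp.false ⟨s(v, w), hw⟩
  · have haL : (fun i : Fin m => aL (m + 1) i.succ) = fun i : Fin m => m - (i : ℕ) := by
      funext i
      simp only [aL, Fin.val_succ]
      rw [if_neg (by omega)]
      omega
    rw [haL]
    have hne : Nonempty (sph (LG X) {e}) := by
      have h1 := deg X (m + 1) hX e
      have h2 : ((LG X).neighborSet e).Nonempty := by
        rw [← Set.ncard_pos (Set.toFinite _), h1]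
        omega
      obtain ⟨f, hf⟩ := h2
      exact ⟨⟨f, (mem_sph X e f).2 hf⟩⟩
    refine hCLQ m m le_rfl ((LG X).induce (sph (LG X) {e})) (fun f => ?_) (fun f g k hfg hfk hgk => ?_)
    · have hf := (mem_sph X e f.1).1 f.2
      obtain ⟨x, hxe, hxf⟩ := hf.2
      have himg : Subtype.val '' (((LG X).induce (sph (LG X) {e})).neighborSet f) =
          E X x \ {e, f.1} := by
        ext g
        constructor
        · rintro ⟨g, hg, rfl⟩
          have h1 := (nbr X hT e f g x hxe hxf).1 hg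
          refine ⟨h1.1, ?_⟩
          rintro (h2 | h2)
          · exact ((mem_sph X e g.1).1 g.2).1 h2.symm
          · exact h1.2 h2
        · rintro ⟨h1, h2⟩
          have hge : g ≠ e := fun h => h2 (Or.inl h)
          have hgf : g ≠ f.1 := fun h => h2 (Or.inr h)
          have hgs : g ∈ sph (LG X) {e} := (mem_sph X e g).2 ⟨fun h => hge h.symm, x, hxe, h1⟩
          exact ⟨⟨g, hgs⟩, (nbr X hT e f ⟨g, hgs⟩ x hxe hxf).2 ⟨h1, hgf⟩, rfl⟩
      have h1 : (((LG X).induce (sph (LG X) {e})).neighborSet f).ncard = (E X x \ {e, f.1}).ncard := by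
        rw [← himg]
        exact (Set.ncard_image_of_injective _ Subtype.val_injective).symm
      have h2 : ({e, f.1} : Set X.edgeSet) ⊆ E X x := by
        rintro g (rfl | rfl)
        · exact hxe
        · exact hxf
      rw [h1, Set.ncard_diff h2 (Set.toFinite _), card_E X _ hX, Set.ncard_pair hf.1]
      omega
    · have hf := (mem_sph X e f.1).1 f.2
      obtain ⟨x, hxe, hxf⟩ := hf.2
      have h1 := (nbr X hT e f g x hxe hxf).1 hfg
      have h2 := (nbr X hT e f k x hxe hxf).1 hfk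
      exact (nbr X hT e g k x hxe h1.1).2 ⟨h2.1, fun h => hgk (Subtype.ext h.symm)⟩

end Pool.HRG
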