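import Pool.Agent.HRG.Stmts

/-!
# HRG module LGB: line graph expansion
-/

namespace Pool.HRG

namespace LGB_

open Finset

theorem handshake {V : Type} [Fintype V] (X : SimpleGraph V) :
    ∑ v, (X.neighborSet v).ncard = 2 * Nat.card X.edgeSet := by
  classical
  have h := X.sum_degrees_eq_twice_card_edges
  rw [Nat.card_eq_fintype_card, ← SimpleGraph.edgeFinset_card, ← h]
  refine Finset.sum_congr rfl fun v _ => ?_
  rw [← SimpleGraph.card_neighborSet_eq_degree, Set.ncard_eq_toFinset_card', Set.toFinset_card]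

end LGB_

open LGB_ in
theorem lgb_proof : Stmt_LGB := by
  intro k ε hk hε V _ X hX hexp
  haveI := Fintype.ofFinite V
  classical
  have hE : 2 * Nat.card X.edgeSet = k * Nat.card V := by
    rw [← handshake X, Finset.sum_congr rfl (fun v _ => hX v), Finset.sum_const, Finset.card_univ,
      Nat.card_eq_fintype_card, smul_eq_mul, mul_comm]
  refine ⟨hE, fun S hS => ?_⟩
  set T : Set (Sym2 V) := Subtype.val '' S with hT
  have hTX : T ⊆ X.edgeSet := by
    rintro _ ⟨e, _, rfl⟩
    exact e.2
  set Y := SimpleGraph.fromEdgeSet T with hY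
  have hYe : Y.edgeSet = T := by
    rw [hY, SimpleGraph.edgeSet_fromEdgeSet]
    ext e
    simp only [Set.mem_diff]
    constructor
    · exact fun h => h.1
    · intro h
      exact ⟨h, fun h2 => X.not_isDiag_of_mem_edgeSet (hTX h) h2⟩
  have hYX : Y ≤ X := by
    intro a b hab
    have : s(a, b) ∈ Y.edgeSet := hab
    rw [hYe] at this
    exact hTX this
  have hcard : Nat.card Y.edgeSet = S.ncard := by
    rw [hYe, Nat.card_coe_set_eq, hT, Set.ncard_image_of_injective _ Subtype.val_injective]
  have hsum : ∑ v, (Y.neighborSet v).ncard = 2 * S.ncard := by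
    rw [handshake Y, hcard]
  have hdeg : ∀ v, (Y.neighborSet v).ncard ≤ k := fun v => by
    rw [← hX v]
    exact Set.ncard_le_ncard (fun w hw => hYX hw) (Set.toFinite _)
  set A : Set V := {v | (Y.neighborSet v).ncard = k} with hA
  set B : Set V := {v | 0 < (Y.neighborSet v).ncard ∧ (Y.neighborSet v).ncard < k} with hB
  -- 2|S| ≤ k|A| + k|B|
  have h1 : 2 * S.ncard ≤ k * A.ncard + k * B.ncard := by
    rw [← hsum]
    have : ∀ v ∈ (Finset.univ : Finset V), (Y.neighborSet v).ncard ≤
        (if v ∈ A then k else 0) + (if v ∈ B then k else 0) := by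
      intro v _
      have h := hdeg v
      by_cases h2 : v ∈ A
      · rw [if_pos h2]; omega
      · rw [if_neg h2]
        by_cases h3 : v ∈ B
        · rw [if_pos h3]; omega
        · rw [if_neg h3]
          simp only [hA, hB, Set.mem_setOf_eq] at h2 h3
          omega
    refine (Finset.sum_le_sum this).trans ?_
    rw [Finset.sum_add_distrib, ← Finset.sum_filter, ← Finset.sum_filter, Finset.sum_const,
      Finset.sum_const, smul_eq_mul, smul_eq_mul, mul_comm k, mul_comm k]
    have e1 : (Finset.univ.filter (fun v => v ∈ A)).card = A.ncard := by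
      rw [Set.ncard_eq_toFinset_card']
      congr 1
      ext v
      simp
    have e2 : (Finset.univ.filter (fun v => v ∈ B)).card = B.ncard := by
      rw [Set.ncard_eq_toFinset_card']
      congr 1
      ext v
      simp
    rw [e1, e2]
  have h2 : k * A.ncard ≤ 2 * S.ncard := by
    rw [← hsum]
    have e1 : (Finset.univ.filter (fun v => v ∈ A)).card = A.ncard := by
      rw [Set.ncard_eq_toFinset_card']
      congr 1
      ext v
      simp
    rw [← e1, mul_comm, ← smul_eq_mul, ← Finset.sum_const, Finset.sum_filter]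
    refine Finset.sum_le_sum fun v _ => ?_
    split_ifs with h
    · exact le_of_eq h.symm
    · exact Nat.zero_le _
  have h3 : 2 * A.ncard ≤ Nat.card V := by
    have : k * (2 * A.ncard) ≤ k * Nat.card V := by
      calc k * (2 * A.ncard) = 2 * (k * A.ncard) := by ring
        _ ≤ 2 * (2 * S.ncard) := by omega
        _ ≤ 2 * Nat.card X.edgeSet := by omega
        _ = k * Nat.card V := hE
    exact Nat.le_of_mul_le_mul_left this (by omega)
  -- pairs X A
  have h4 : (pairs X A).ncard ≤ k * B.ncard := by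
    have hsub : pairs X A ⊆ ⋃ b ∈ B.toFinset, (fun a => (a, b)) '' (X.neighborSet b) := by
      rintro ⟨a, b⟩ ⟨ha, hb, hab⟩
      have hab' : Y.Adj a b := by
        have hle : (X.neighborSet a).ncard ≤ (Y.neighborSet a).ncard := by
          rw [hX a]
          exact le_of_eq (show (Y.neighborSet a).ncard = k from ha).symm
        have hss : Y.neighborSet a ⊆ X.neighborSet a := fun w hw => hYX hw
        have h5 : Y.neighborSet a = X.neighborSet a :=
          Set.eq_of_subset_of_ncard_le hss hle (Set.toFinite _)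
        have : b ∈ X.neighborSet a := hab
        rw [← h5] at this
        exact this
      have hbB : b ∈ B := by
        refine ⟨?_, lt_of_le_of_ne (hdeg b) hb⟩
        rw [Set.ncard_pos]
        exact ⟨a, hab'.symm⟩
      simp only [Set.mem_iUnion]
      exact ⟨b, by simpa using hbB, a, hab.symm, rfl⟩
    refine (Set.ncard_le_ncard hsub (Set.toFinite _)).trans ?_
    refine (Finset.set_ncard_biUnion_le _ _).trans ?_
    calc ∑ i ∈ B.toFinset, ((fun a => (a, i)) '' (X.neighborSet i)).ncard
        ≤ ∑ i ∈ B.toFinset, k := by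
          refine Finset.sum_le_sum fun i _ => ?_
          exact (Set.ncard_image_le (Set.toFinite _)).trans (le_of_eq (hX i))
      _ = k * B.ncard := by
          rw [Finset.sum_const, smul_eq_mul, mul_comm, Set.ncard_eq_toFinset_card']
  have h5 : ε * (A.ncard : ℝ) ≤ k * (B.ncard : ℝ) := by
    rcases A.eq_empty_or_nonempty with h | h
    · rw [h, Set.ncard_empty]
      simp only [Nat.cast_zero, mul_zero]
      positivity
    · refine (hexp A h h3).trans ?_
      exact_mod_cast h4
  -- |B| ≤ |pairs (LG X) S|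
  have h6 : B.ncard ≤ (pairs (LG X) S).ncard := by
    have hex : ∀ v : V, v ∈ B → ∃ p : X.edgeSet × X.edgeSet, p ∈ pairs (LG X) S ∧
        v ∈ (p.1 : Sym2 V) ∧ v ∈ (p.2 : Sym2 V) := by
      intro v hv
      obtain ⟨hv1, hv2⟩ := hv
      rw [Set.ncard_pos] at hv1
      obtain ⟨w, hw⟩ := hv1
      have h7 : s(v, w) ∈ Y.edgeSet := hw
      rw [hYe] at h7
      obtain ⟨e, he, he2⟩ := h7
      have h8 : ∃ u, X.Adj v u ∧ ¬ Y.Adj v u := by
        by_contra hcon
        push Not at hcon
        have : (X.neighborSet v).ncard ≤ (Y.neighborSet v).ncard :=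
          Set.ncard_le_ncard (fun u hu => hcon u hu) (Set.toFinite _)
        rw [hX v] at this
        omega
      obtain ⟨u, hu0, hu2⟩ := h8
      have hu1 : s(v, u) ∈ X.edgeSet := hu0
      have h9 : (⟨s(v, u), hu1⟩ : X.edgeSet) ∉ S := by
        intro h
        apply hu2
        have : s(v, u) ∈ T := ⟨_, h, rfl⟩
        rw [← hYe] at this
        exact this
      refine ⟨(e, ⟨s(v, u), hu1⟩), ⟨he, h9, ?_, v, ?_, ?_⟩, ?_, ?_⟩
      · intro h
        apply h9
        have h' : e = (⟨s(v, u), hu1⟩ : X.edgeSet) := h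
        rw [← h']
        exact he
      · rw [he2]; simp
      · simp
      · change v ∈ (e : Sym2 V)
        rw [he2]; simp
      · simp
    rcases B.eq_empty_or_nonempty with hBe | ⟨v0, hv0⟩
    · rw [hBe, Set.ncard_empty]
      exact Nat.zero_le _
    obtain ⟨p0, _⟩ := hex v0 hv0
    have : Nonempty (X.edgeSet × X.edgeSet) := ⟨p0⟩
    choose! f hf using hex
    refine Set.ncard_le_ncard_of_injOn f (fun v hv => (hf v hv).1) ?_ (Set.toFinite _)
    intro v hv w hw hvw
    by_contra hne
    have g1 := hf v hv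
    have g2 := hf w hw
    rw [← hvw] at g2
    have g3 : ((f v).1 : Sym2 V) = s(v, w) := (Sym2.mem_and_mem_iff hne).1 ⟨g1.2.1, g2.2.1⟩
    have g4 : ((f v).2 : Sym2 V) = s(v, w) := (Sym2.mem_and_mem_iff hne).1 ⟨g1.2.2, g2.2.2⟩
    exact g1.1.2.2.1 (Subtype.ext (g3.trans g4.symm))
  have h1' : 2 * (S.ncard : ℝ) ≤ k * (A.ncard : ℝ) + k * (B.ncard : ℝ) := by exact_mod_cast h1
  have h6' : (B.ncard : ℝ) ≤ ((pairs (LG X) S).ncard : ℝ) := by exact_mod_cast h6
  have h7 : (A.ncard : ℝ) ≤ k / ε * (B.ncard : ℝ) := by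
    rw [div_mul_eq_mul_div, le_div_iff₀ hε]
    linarith
  have hk0 : (0 : ℝ) ≤ k := Nat.cast_nonneg k
  calc 2 * (S.ncard : ℝ) ≤ k * (A.ncard : ℝ) + k * (B.ncard : ℝ) := h1'
    _ ≤ k * (k / ε * (B.ncard : ℝ)) + k * (B.ncard : ℝ) := by gcongr
    _ = ((k : ℝ) ^ 2 / ε + k) * (B.ncard : ℝ) := by ring
    _ ≤ _ := by
      apply mul_le_mul_of_nonneg_left h6'
      positivity

end Pool.HRG
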