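import Pool.Agent.HRG.Stmts

namespace Pool.HRG

theorem nexp_proof (h1 : Stmt_BAS2) (h2 : Stmt_FAM2) (h3 : Stmt_TWO) (h4 : Stmt_GROW) :
    Stmt_NEXP := by
  rintro n hn ⟨ε, hε, V, X, hfin, hP, hiso⟩
  obtain ⟨M, hM⟩ := h4 2 ε hε
  obtain ⟨k, hk⟩ := h2 V X hfin hiso M
  haveI := hfin k
  have hdeg : ∀ v, ((X k).neighborSet v).ncard = 2 := by
    obtain ⟨n, rfl⟩ : ∃ m, n = m + 1 := ⟨n - 1, by omega⟩
    intro v
    have := (hP k).1.1.1 v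
    simpa [aC] using this
  obtain ⟨v⟩ : Nonempty (V k) := (Nat.card_pos_iff.mp (by omega)).1
  have := hM (X k) (fun v => (hdeg v).le) ((h1 (X k) ε hε).mp (hP k).2) v
    (fun r => h3 (X k) hdeg v r)
  omega

end Pool.HRG
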