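import Pool.Agent.HRG.Stmts

/-! Module NHC: there is no `(2n, n-1, …, 1)`-connected regular graph. -/

set_option autoImplicit false

namespace Pool.HRG

namespace NHC_

theorem sph_single {V : Type} (X : SimpleGraph V) (v : V) : sph X {v} = X.neighborSet v := by
  ext w
  simp only [sph, Set.mem_singleton_iff, Set.mem_setOf_eq, SimpleGraph.mem_neighborSet]
  constructor
  · rintro ⟨-, h⟩
    exact h v rfl
  · intro h
    exact ⟨fun h1 => X.loopless.irrefl v (h1 ▸ h), fun c hc => hc ▸ h⟩

theorem induce_ncard {V : Type} (X : SimpleGraph V) (S : Set V) (y : S) :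
    ((X.induce S).neighborSet y).ncard = {z | z ∈ S ∧ X.Adj y z}.ncard := by
  have h1 : {z | z ∈ S ∧ X.Adj y z} = Subtype.val '' ((X.induce S).neighborSet y) := by
    ext z
    constructor
    · rintro ⟨h1, h2⟩
      exact ⟨⟨z, h1⟩, h2, rfl⟩
    · rintro ⟨w, hw, rfl⟩
      exact ⟨w.2, hw⟩
  rw [h1, Set.ncard_image_of_injective _ Subtype.val_injective]

/-- A connected graph whose neighbourhoods are cliques with `k` vertices has `k + 1` vertices. -/
theorem card_of_clique {W : Type} [Finite W] (Y : SimpleGraph W) (k : ℕ)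
    (hdeg : ∀ v, (Y.neighborSet v).ncard = k)
    (hcl : ∀ v x y, Y.Adj v x → Y.Adj v y → x ≠ y → Y.Adj x y) (hpre : Y.Preconnected) (u : W) :
    Nat.card W = k + 1 := by
  classical
  have hu : u ∉ Y.neighborSet u := fun h => Y.loopless.irrefl u h
  have hB : (insert u (Y.neighborSet u)).ncard = k + 1 := by
    rw [Set.ncard_insert_of_notMem hu, hdeg]
  have hclosed : ∀ w ∈ insert u (Y.neighborSet u), ∀ w', Y.Adj w w' →
      w' ∈ insert u (Y.neighborSet u) := by
    intro w hw w' hww'
    rcases hw with rfl | hw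
    · exact Or.inr hww'
    · have h1 : insert u (Y.neighborSet u \ {w}) ⊆ Y.neighborSet w := by
        intro z hz
        rcases hz with rfl | ⟨hz, hzw⟩
        · exact SimpleGraph.Adj.symm hw
        · exact hcl u w z hw hz (fun h => hzw h.symm)
      have h2 : (insert u (Y.neighborSet u \ {w})).ncard = k := by
        rw [Set.ncard_insert_of_notMem (fun h => hu h.1),
          Set.ncard_diff_singleton_add_one hw, hdeg]
      have h3 : insert u (Y.neighborSet u \ {w}) = Y.neighborSet w :=
        Set.eq_of_subset_of_ncard_le h1 (by rw [h2, hdeg])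
      have h4 : w' ∈ insert u (Y.neighborSet u \ {w}) := by
        rw [h3]
        exact hww'
      rcases h4 with h4 | h4
      · exact Or.inl h4
      · exact Or.inr h4.1
  have hall : ∀ w, w ∈ insert u (Y.neighborSet u) := by
    intro w
    obtain ⟨p⟩ := hpre u w
    have key : ∀ {a b : W} (p : Y.Walk a b), a ∈ insert u (Y.neighborSet u) →
        b ∈ insert u (Y.neighborSet u) := by
      intro a b p
      induction p with
      | nil => exact fun h => h
      | cons hadj _ ih => exact fun h => ih (hclosed _ h _ hadj)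
    exact key p (Or.inl rfl)
  rw [← Set.ncard_univ, ← hB]
  congr 1
  ext w
  simp only [Set.mem_univ, true_iff]
  exact hall w

/-- If the sphere around `u` has `k` vertices and is `(k-1)`-regular then it is a clique. -/
theorem sphere_clique {W : Type} [Finite W] (Y : SimpleGraph W) (k : ℕ) (u : W)
    (hdeg : (Y.neighborSet u).ncard = k + 1) (hs : Deg (Y.induce (sph Y {u})) k) :
    ∀ x y, Y.Adj u x → Y.Adj u y → x ≠ y → Y.Adj x y := by
  intro x y hx hy hxy
  have hx' : x ∈ sph Y {u} := by
    rw [sph_single]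
    exact hx
  have h1 := hs.1 ⟨x, hx'⟩
  rw [induce_ncard] at h1
  have h2 : {z | z ∈ sph Y {u} ∧ Y.Adj x z} ⊆ Y.neighborSet u \ {x} := by
    intro z hz
    rw [sph_single] at hz
    refine ⟨hz.1, fun h => ?_⟩
    rw [Set.mem_singleton_iff] at h
    exact Y.loopless.irrefl x (h ▸ hz.2)
  have h3 : (Y.neighborSet u \ {x}).ncard = k := by
    have := Set.ncard_diff_singleton_add_one (s := Y.neighborSet u) hx
    omega
  have h4 : {z | z ∈ sph Y {u} ∧ Y.Adj x z} = Y.neighborSet u \ {x} :=
    Set.eq_of_subset_of_ncard_le h2 (by rw [h3]; exact h1.ge)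
  have h5 : y ∈ {z | z ∈ sph Y {u} ∧ Y.Adj x z} := by
    rw [h4]
    exact ⟨hy, fun h => hxy h.symm⟩
  exact h5.2

end NHC_

open NHC_ in
theorem nhc_proof : Stmt_NHC := by
  intro e n hn ⟨V, X, hfin, hX⟩
  obtain ⟨m, rfl⟩ : ∃ m, n = m + 2 := ⟨n - 2, by omega⟩
  obtain ⟨⟨hD, hs⟩, hc⟩ := hX
  have ha0 : aL (m + 2) 0 = 2 * (m + 2) := by simp [aL]
  have hne : Nonempty V := by
    by_contra hcon
    rw [not_nonempty_iff] at hcon
    have := hD.2 hcon
    rw [ha0] at this
    omega
  obtain ⟨v⟩ := hne
  obtain ⟨hD2, hs2⟩ := hs v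
  have ha1 : aL (m + 2) (Fin.succ 0) = m + 1 := by simp [aL]
  have hD2' : Deg (X.induce (sph X {v})) (m + 1) := by
    rw [← ha1]
    exact hD2
  have hpre : (X.induce (sph X {v})).Preconnected := by
    have h1 := (hc {v} (by simp) (by simp)).1
    have h2 : sph X ((({v} : Finset V) : Set V)) = sph X {v} := by rw [Finset.coe_singleton]
    rw [h2] at h1
    exact h1
  have hcard : Nat.card (sph X {v}) = 2 * (m + 2) := by
    rw [Nat.card_coe_set_eq, sph_single, hD.1, ha0]
  have hpos : Nonempty (sph X {v}) := by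
    by_contra hcon
    rw [not_nonempty_iff] at hcon
    rw [Nat.card_of_isEmpty] at hcard
    omega
  obtain ⟨u⟩ := hpos
  have hcl : ∀ w x y : sph X {v}, (X.induce (sph X {v})).Adj w x → (X.induce (sph X {v})).Adj w y →
      x ≠ y → (X.induce (sph X {v})).Adj x y := by
    intro w
    rcases m with _ | m
    · intro x y hx hy hxy
      exfalso
      have h1 := hD2'.1 w
      rw [Set.ncard_eq_one] at h1
      obtain ⟨c, hc'⟩ := h1
      have h2 : x ∈ ({c} : Set _) := hc' ▸ hx
      have h3 : y ∈ ({c} : Set _) := hc' ▸ hy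
      exact hxy (h2.trans h3.symm)
    · have h1 := (hs2 w).1
      have ha2 : aL (m + 1 + 2) (Fin.succ (Fin.succ 0)) = m + 1 := by
        have h2m : 2 % (m + 1 + 2) = 2 := Nat.mod_eq_of_lt (by omega)
        simp [aL, h2m]
      have h2 : Deg ((X.induce (sph X {v})).induce (sph (X.induce (sph X {v})) {w})) (m + 1) := by
        rw [← ha2]
        exact h1
      exact sphere_clique _ (m + 1) w (hD2'.1 w) h2
  have h5 := card_of_clique (X.induce (sph X {v})) (m + 1) hD2'.1 hcl hpre u
  omega

end Pool.HRG
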