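import Pool.Agent.HRG.Stmts

/-!
# Module PRM: permutations mapping a set into a set
-/

namespace Pool.HRG

namespace PRM_

open Finset

/-- the number of permutations mapping `A` onto `A'` only depends on the size of `A'` -/
theorem cnt {N : ℕ} (A A' A'' : Finset (Fin N)) (h : A'.card = A''.card) :
    (univ.filter (fun σ : Equiv.Perm (Fin N) => A.map σ.toEmbedding = A')).card =
      (univ.filter (fun σ : Equiv.Perm (Fin N) => A.map σ.toEmbedding = A'')).card := by
  classical
  obtain ⟨τ, hτ⟩ : ∃ τ : Equiv.Perm (Fin N), A'.map τ.toEmbedding = A'' := by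
    let e : {x // x ∈ A'} ≃ {x // x ∈ A''} := Finset.equivOfCardEq h
    refine ⟨e.extendSubtype, ?_⟩
    apply Finset.eq_of_subset_of_card_le
    · intro x hx
      obtain ⟨y, hy, rfl⟩ := Finset.mem_map.1 hx
      exact e.extendSubtype_mem y hy
    · rw [Finset.card_map, h]
  refine Finset.card_bij' (fun σ _ => σ.trans τ) (fun σ _ => σ.trans τ.symm) ?_ ?_ ?_ ?_
  · intro σ hσ
    rw [Finset.mem_filter] at hσ ⊢
    refine ⟨Finset.mem_univ _, ?_⟩
    rw [← hτ, ← hσ.2, Finset.map_map]
    rfl
  · intro σ hσ
    rw [Finset.mem_filter] at hσ ⊢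
    refine ⟨Finset.mem_univ _, ?_⟩
    have h1 : A.map (σ.trans τ.symm).toEmbedding = (A.map σ.toEmbedding).map τ.symm.toEmbedding := by
      rw [Finset.map_map]; rfl
    rw [h1, hσ.2, ← hτ, Finset.map_map]
    have h2 : τ.toEmbedding.trans τ.symm.toEmbedding = Function.Embedding.refl _ := by
      ext x
      simp
    rw [h2, Finset.map_refl]
  · intro σ _
    ext x
    simp
  · intro σ _
    ext x
    simp

end PRM_

open PRM_ Finset in
theorem prm_proof : Stmt_PRM := by
  classical
  intro N A B
  set c := (univ.filter (fun σ : Equiv.Perm (Fin N) => A.map σ.toEmbedding = A)).card with hc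
  have hcc : ∀ A' : Finset (Fin N), A'.card = A.card →
      (univ.filter (fun σ : Equiv.Perm (Fin N) => A.map σ.toEmbedding = A')).card = c :=
    fun A' h => cnt A A' A h
  have h1 : N.factorial = N.choose A.card * c := by
    have h : (univ : Finset (Equiv.Perm (Fin N))).card = ∑ A' ∈ powersetCard A.card univ,
        (univ.filter (fun σ : Equiv.Perm (Fin N) => A.map σ.toEmbedding = A')).card :=
      Finset.card_eq_sum_card_fiberwise fun σ _ => by
        simp [Finset.mem_powersetCard]
    rw [Finset.sum_congr rfl (fun A' hA' => hcc A' (Finset.mem_powersetCard.1 hA').2),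
      Finset.sum_const, Finset.card_powersetCard, Finset.card_univ, Fintype.card_perm,
      Finset.card_univ, Fintype.card_fin] at h
    simpa using h
  have h2 : (univ.filter (fun σ : Equiv.Perm (Fin N) => ∀ a ∈ A, σ a ∈ B)).card =
      B.card.choose A.card * c := by
    have h : (univ.filter (fun σ : Equiv.Perm (Fin N) => ∀ a ∈ A, σ a ∈ B)).card =
        ∑ A' ∈ powersetCard A.card B,
        ((univ.filter (fun σ : Equiv.Perm (Fin N) => ∀ a ∈ A, σ a ∈ B)).filter
          (fun σ : Equiv.Perm (Fin N) => A.map σ.toEmbedding = A')).card := by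
      apply Finset.card_eq_sum_card_fiberwise
      intro σ hσ
      have hσ' := (Finset.mem_filter.1 (Finset.mem_coe.1 hσ)).2
      rw [Finset.mem_coe, Finset.mem_powersetCard, Finset.card_map]
      refine ⟨?_, rfl⟩
      intro x hx
      obtain ⟨y, hy, rfl⟩ := Finset.mem_map.1 hx
      exact hσ' y hy
    rw [h, Finset.sum_congr rfl (g := fun _ => c), Finset.sum_const, Finset.card_powersetCard,
      smul_eq_mul]
    intro A' hA'
    rw [Finset.mem_powersetCard] at hA'
    rw [← hcc A' hA'.2, Finset.filter_filter]
    congr 1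
    apply Finset.filter_congr
    intro σ _
    constructor
    · exact fun h => h.2
    · intro h
      refine ⟨fun a ha => ?_, h⟩
      apply hA'.1
      rw [← h]
      exact Finset.mem_map_of_mem _ ha
  rw [h2, h1]
  ring

end Pool.HRG
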