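import Pool.Agent.HRG.Stmts

set_option autoImplicit false

/-!
# Module TOR: circulant graphs are `(6,2)`-connected regular
-/

namespace Pool.HRG.TOR_

/-- the hexagon of differences -/
def f : Fin 6 → ℤ := ![1, 4, 3, -1, -4, -3]

theorem small {m : ℕ} (hm : 13 ≤ m) (c : ℤ) (hc : |c| ≤ 12) : ((c : ℤ) : ZMod m) = 0 ↔ c = 0 := by
  constructor
  · intro h
    rw [ZMod.intCast_zmod_eq_zero_iff_dvd] at h
    by_contra hne
    have h1 : (m : ℤ) ≤ |c| := Int.le_of_dvd (abs_pos.2 hne) ((dvd_abs _ _).2 h)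
    have h2 : (13 : ℤ) ≤ m := by exact_mod_cast hm
    omega
  · rintro rfl
    simp

theorem adj_iff {m : ℕ} (hm : 13 ≤ m) (x y : ZMod m) :
    (circ m).Adj x y ↔ ∃ i : Fin 6, y = x + ((f i : ℤ) : ZMod m) := by
  unfold circ
  rw [SimpleGraph.fromRel_adj]
  constructor
  · rintro ⟨-, (h | h | h) | (h | h | h)⟩
    · exact ⟨0, by simp [f]; linear_combination h⟩
    · exact ⟨2, by simp [f]; linear_combination h⟩
    · exact ⟨1, by simp [f]; linear_combination h⟩
    · exact ⟨3, by simp [f]; linear_combination -h⟩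
    · exact ⟨5, by simp [f]; linear_combination -h⟩
    · exact ⟨4, by simp [f]; linear_combination -h⟩
  · rintro ⟨i, hi⟩
    have hne : x ≠ y := by
      intro h
      rw [← h] at hi
      have h1 : ((f i : ℤ) : ZMod m) = 0 := by linear_combination -hi
      rw [small hm] at h1
      · clear hi; revert h1; revert i; decide
      · clear h1 hi; revert i; decide
    refine ⟨hne, ?_⟩
    subst hi
    fin_cases i <;> simp [f]

theorem f_inj {m : ℕ} (hm : 13 ≤ m) (i j : Fin 6)
    (h : ((f i : ℤ) : ZMod m) = ((f j : ℤ) : ZMod m)) : i = j := by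
  have h1 : ((f i - f j : ℤ) : ZMod m) = 0 := by
    rw [Int.cast_sub, h, sub_self]
  rw [small hm] at h1
  · clear h; revert h1; revert i j; decide
  · clear h1 h; revert i j; decide

theorem f_adj {m : ℕ} (hm : 13 ≤ m) (v : ZMod m) (i j : Fin 6) :
    (circ m).Adj (v + ((f i : ℤ) : ZMod m)) (v + ((f j : ℤ) : ZMod m)) ↔
      (j = i + 1 ∨ j = i - 1) := by
  rw [adj_iff hm]
  have h1 : (∃ l : Fin 6, v + ((f j : ℤ) : ZMod m) =
      v + ((f i : ℤ) : ZMod m) + ((f l : ℤ) : ZMod m)) ↔ ∃ l : Fin 6, f j - f i - f l = 0 := by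
    refine exists_congr fun l => ?_
    rw [← small hm (f j - f i - f l)]
    · push_cast
      constructor
      · intro h; linear_combination h
      · intro h; linear_combination h
    · revert i j l; decide
  rw [h1]
  clear h1
  revert i j
  decide

theorem mem_sph {m : ℕ} (hm : 13 ≤ m) (v w : ZMod m) :
    w ∈ sph (circ m) {v} ↔ ∃ i : Fin 6, w = v + ((f i : ℤ) : ZMod m) := by
  rw [← adj_iff hm]
  unfold sph
  constructor
  · rintro ⟨-, h⟩
    exact h v rfl
  · intro h
    refine ⟨?_, ?_⟩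
    · intro hw
      rw [Set.mem_singleton_iff] at hw
      rw [hw] at h
      exact (circ m).loopless.irrefl _ h
    · intro c hc
      rw [Set.mem_singleton_iff] at hc
      rw [hc]
      exact h

/-- parametrisation of the sphere -/
def g {m : ℕ} (hm : 13 ≤ m) (v : ZMod m) (i : Fin 6) : sph (circ m) {v} :=
  ⟨v + ((f i : ℤ) : ZMod m), (mem_sph hm v _).2 ⟨i, rfl⟩⟩

theorem g_inj {m : ℕ} (hm : 13 ≤ m) (v : ZMod m) : Function.Injective (g hm v) := by
  intro i j h
  have h1 : v + ((f i : ℤ) : ZMod m) = v + ((f j : ℤ) : ZMod m) := congrArg Subtype.val h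
  exact f_inj hm i j (add_left_cancel h1)

theorem g_surj {m : ℕ} (hm : 13 ≤ m) (v : ZMod m) : Function.Surjective (g hm v) := by
  rintro ⟨w, hw⟩
  obtain ⟨i, hi⟩ := (mem_sph hm v w).1 hw
  exact ⟨i, Subtype.ext hi.symm⟩

theorem g_adj {m : ℕ} (hm : 13 ≤ m) (v : ZMod m) (i j : Fin 6) :
    ((circ m).induce (sph (circ m) {v})).Adj (g hm v i) (g hm v j) ↔
      (j = i + 1 ∨ j = i - 1) := by
  rw [SimpleGraph.comap_adj]
  exact f_adj hm v i j

theorem deg_circ {m : ℕ} (hm : 13 ≤ m) (v : ZMod m) : ((circ m).neighborSet v).ncard = 6 := by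
  have h1 : (circ m).neighborSet v = (fun i : Fin 6 => v + ((f i : ℤ) : ZMod m)) '' Set.univ := by
    ext w
    rw [SimpleGraph.mem_neighborSet, adj_iff hm]
    constructor
    · rintro ⟨i, hi⟩
      exact ⟨i, trivial, hi.symm⟩
    · rintro ⟨i, -, hi⟩
      exact ⟨i, hi.symm⟩
  rw [h1, Set.ncard_image_of_injective _ (fun i j h => f_inj hm i j (add_left_cancel h)),
    Set.ncard_univ, Nat.card_eq_fintype_card, Fintype.card_fin]

theorem deg_sph {m : ℕ} (hm : 13 ≤ m) (v : ZMod m) (w : sph (circ m) {v}) :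
    (((circ m).induce (sph (circ m) {v})).neighborSet w).ncard = 2 := by
  obtain ⟨i, rfl⟩ := g_surj hm v w
  have h1 : ((circ m).induce (sph (circ m) {v})).neighborSet (g hm v i) =
      (g hm v) '' {i + 1, i - 1} := by
    ext w
    rw [SimpleGraph.mem_neighborSet]
    obtain ⟨j, rfl⟩ := g_surj hm v w
    rw [g_adj hm]
    constructor
    · intro h
      exact ⟨j, h, rfl⟩
    · rintro ⟨j', h, h2⟩
      rw [← g_inj hm v h2]
      exact h
  rw [h1, Set.ncard_image_of_injective _ (g_inj hm v)]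
  apply Set.ncard_pair
  clear h1
  revert i
  decide

theorem pre_sph {m : ℕ} (hm : 13 ≤ m) (v : ZMod m) :
    ((circ m).induce (sph (circ m) {v})).Preconnected := by
  have h0 : ∀ j : Fin 6, ((circ m).induce (sph (circ m) {v})).Reachable (g hm v 0) (g hm v j) := by
    intro j
    induction j using Fin.induction with
    | zero => exact SimpleGraph.Reachable.refl _
    | succ i ih =>
      refine ih.trans (SimpleGraph.Adj.reachable ?_)
      rw [g_adj hm]
      left
      clear ih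
      revert i
      decide
  intro x y
  obtain ⟨i, rfl⟩ := g_surj hm v x
  obtain ⟨j, rfl⟩ := g_surj hm v y
  exact (h0 i).symm.trans (h0 j)

theorem pre_univ {m : ℕ} (hm : 13 ≤ m) :
    ((circ m).induce (sph (circ m) (∅ : Set (ZMod m)))).Preconnected := by
  have : NeZero m := ⟨by omega⟩
  have hmem : ∀ x : ZMod m, x ∈ sph (circ m) (∅ : Set (ZMod m)) := by
    intro x
    refine ⟨fun h => h, fun c hc => absurd hc (Set.notMem_empty c)⟩
  have h0 : ∀ (n : ℕ) (x : ZMod m),
      ((circ m).induce (sph (circ m) (∅ : Set (ZMod m)))).Reachable ⟨x, hmem x⟩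
        ⟨x + (n : ZMod m), hmem _⟩ := by
    intro n x
    induction n with
    | zero =>
      have h1 : (⟨x + ((0 : ℕ) : ZMod m), hmem _⟩ : sph (circ m) (∅ : Set (ZMod m))) =
          ⟨x, hmem x⟩ := Subtype.ext (by simp)
      rw [h1]
    | succ n ih =>
      refine ih.trans (SimpleGraph.Adj.reachable ?_)
      rw [SimpleGraph.comap_adj]
      show (circ m).Adj (x + (n : ZMod m)) (x + ((n + 1 : ℕ) : ZMod m))
      rw [adj_iff hm]
      refine ⟨0, ?_⟩
      simp [f]
      ring
  rintro ⟨x, hx⟩ ⟨y, hy⟩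
  have h1 := h0 (y - x).val x
  have h2 : (⟨x + (((y - x).val : ℕ) : ZMod m), hmem _⟩ : sph (circ m) (∅ : Set (ZMod m))) =
      ⟨y, hy⟩ := Subtype.ext (by
        show x + (((y - x).val : ℕ) : ZMod m) = y
        rw [ZMod.natCast_zmod_val]
        ring)
  rw [h2] at h1
  exact h1

end Pool.HRG.TOR_

namespace Pool.HRG

open TOR_

/-- Module TOR. -/
theorem tor_proof : Stmt_TOR := by
  intro e m hm
  have : NeZero m := ⟨by omega⟩
  refine ⟨⟨⟨fun v => ?_, fun h => ?_⟩, fun v => ⟨⟨fun w => ?_, fun h => ?_⟩, fun _ => trivial⟩⟩,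
    ?_⟩
  · exact deg_circ hm v
  · exact (h.false (0 : ZMod m)).elim
  · exact deg_sph hm v w
  · exact (h.false (g hm v 0)).elim
  · intro C hC hcard
    have h2 : C.card = 0 ∨ C.card = 1 := by omega
    rcases h2 with h2 | h2
    · rw [Finset.card_eq_zero] at h2
      subst h2
      rw [Finset.coe_empty]
      refine ⟨pre_univ hm, Or.inl ⟨⟨0, ?_⟩⟩⟩
      exact ⟨fun h => h, fun c hc => absurd hc (Set.notMem_empty c)⟩
    · obtain ⟨v, rfl⟩ := Finset.card_eq_one.1 h2
      rw [Finset.coe_singleton]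
      exact ⟨pre_sph hm v, Or.inl ⟨g hm v 0⟩⟩

end Pool.HRG
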