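import Pool.Agent.HRG.Stmts

/-!
# TWO: growth of `2`-regular graphs
-/

namespace Pool.HRG

namespace TWO_

variable {V : Type} [Finite V] (X : SimpleGraph V)

/-- the sphere of radius `r + 1` -/
def D (v : V) (r : ℕ) : Set V := ball X v (r + 1) \ ball X v r

theorem ball_succ (v : V) (r : ℕ) :
    ball X v (r + 1) = ball X v r ∪ {w | ∃ u ∈ ball X v r, X.Adj u w} := rfl

theorem D_zero (h : ∀ v, (X.neighborSet v).ncard = 2) (v : V) : (D X v 0).ncard ≤ 2 := by
  rw [← h v]
  refine Set.ncard_le_ncard ?_ (Set.toFinite _)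
  intro w hw
  obtain ⟨h1, h2⟩ := hw
  rw [ball_succ] at h1
  rcases h1 with h1 | ⟨u, hu, huw⟩
  · exact absurd h1 h2
  · have : u = v := hu
    rw [this] at huw
    exact huw

theorem D_succ (h : ∀ v, (X.neighborSet v).ncard = 2) (v : V) (r : ℕ) :
    (D X v (r + 1)).ncard ≤ (D X v r).ncard := by
  classical
  have hex : ∀ w ∈ D X v (r + 1), ∃ u ∈ D X v r, X.Adj u w := by
    intro w hw
    obtain ⟨h1, h2⟩ := hw
    rw [ball_succ] at h1
    rcases h1 with h1 | ⟨u, hu, huw⟩
    · exact absurd h1 h2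
    · refine ⟨u, ⟨hu, fun hu' => h2 ?_⟩, huw⟩
      rw [ball_succ]
      exact Or.inr ⟨u, hu', huw⟩
  choose! f hf1 hf2 using hex
  refine Set.ncard_le_ncard_of_injOn f hf1 ?_ (Set.toFinite _)
  intro w hw w' hw' hff
  have hu := hf1 w hw
  have a1 := hf2 w hw
  have a2 := hf2 w' hw'
  rw [← hff] at a2
  obtain ⟨h1, h2⟩ := hu
  rw [ball_succ] at h1
  rcases h1 with h1 | ⟨u', hu', huu'⟩
  · exact absurd h1 h2
  · by_contra hne
    have hw1 : w ≠ u' := by
      rintro rfl
      exact hw.2 (by rw [ball_succ]; exact Or.inl hu')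
    have hw2 : w' ≠ u' := by
      rintro rfl
      exact hw'.2 (by rw [ball_succ]; exact Or.inl hu')
    have hsub : ({w, w', u'} : Set V) ⊆ X.neighborSet (f w) := by
      intro z hz
      rcases hz with rfl | rfl | rfl
      · exact a1
      · exact a2
      · exact huu'.symm
    have h3 := Set.ncard_le_ncard hsub (Set.toFinite _)
    rw [h (f w)] at h3
    have h4 : ({w, w', u'} : Set V).ncard = 3 := by
      rw [Set.ncard_eq_three]
      exact ⟨w, w', u', hne, hw1, hw2, rfl⟩
    omega

theorem D_le (h : ∀ v, (X.neighborSet v).ncard = 2) (v : V) (r : ℕ) : (D X v r).ncard ≤ 2 := by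
  induction r with
  | zero => exact D_zero X h v
  | succ r ih => exact (D_succ X h v r).trans ih

theorem ball_le (h : ∀ v, (X.neighborSet v).ncard = 2) (v : V) (r : ℕ) :
    (ball X v r).ncard ≤ 2 * r + 1 := by
  induction r with
  | zero =>
    have : ball X v 0 = {v} := rfl
    rw [this, Set.ncard_singleton]
  | succ r ih =>
    have h1 : ball X v (r + 1) ⊆ ball X v r ∪ D X v r := by
      intro w hw
      by_cases h2 : w ∈ ball X v r
      · exact Or.inl h2
      · exact Or.inr ⟨hw, h2⟩
    have h2 := Set.ncard_le_ncard h1 (Set.toFinite _)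
    have h3 := Set.ncard_union_le (ball X v r) (D X v r)
    have h4 := D_le X h v r
    omega

end TWO_

theorem two_proof : Stmt_TWO := by
  intro V _ X h v r
  have h1 := TWO_.ball_le X h v r
  nlinarith

end Pool.HRG
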