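import Pool.Agent.HRG.Stmts

/-!
# UNI: six permutations that expand all sets with at most half of the points (union bound)
-/

namespace Pool.HRG

namespace UNI_

open Finset

/-- permutations mapping `A` into `B` -/
def PP (N : ℕ) (A B : Finset (Fin N)) : Finset (Equiv.Perm (Fin N)) :=
  Finset.univ.filter (fun σ : Equiv.Perm (Fin N) => ∀ a ∈ A, σ a ∈ B)

theorem cover (N : ℕ) (σ : Fin 6 → Equiv.Perm (Fin N)) (A : Finset (Fin N))
    (h2 : 2 * A.card ≤ N)
    (h : 10 * (univ.filter (fun p : Fin N × Fin 6 => p.1 ∈ A ∧ σ p.2 p.1 ∉ A)).card ≤ A.card) :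
    ∃ J : Finset (Fin N), J.card = A.card / 10 ∧ ∀ i, σ i ∈ PP N A (A ∪ J) := by
  classical
  set C := univ.filter (fun p : Fin N × Fin 6 => p.1 ∈ A ∧ σ p.2 p.1 ∉ A) with hC
  have hUc : (C.image (fun p : Fin N × Fin 6 => σ p.2 p.1)).card ≤ A.card / 10 := by
    have h1 : (C.image (fun p : Fin N × Fin 6 => σ p.2 p.1)).card ≤ C.card :=
      Finset.card_image_le
    omega
  obtain ⟨J, hUJ, hJ⟩ := Finset.exists_superset_card_eq hUc (by rw [Fintype.card_fin]; omega)
  refine ⟨J, hJ, fun i => ?_⟩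
  unfold PP
  rw [Finset.mem_filter]
  refine ⟨Finset.mem_univ _, fun a ha => ?_⟩
  rw [Finset.mem_union]
  by_cases hb : σ i a ∈ A
  · exact Or.inl hb
  · right
    apply hUJ
    rw [Finset.mem_image]
    refine ⟨(a, i), ?_, rfl⟩
    rw [hC, Finset.mem_filter]
    exact ⟨Finset.mem_univ _, ha, hb⟩

theorem one_set (h2 : Stmt_PRM) (N s j : ℕ) (A J : Finset (Fin N)) (hA : A.card = s)
    (hJ : J.card = j) :
    (PP N A (A ∪ J)).card ^ 6 * (N.choose s) ^ 6 ≤ N.factorial ^ 6 * ((s + j).choose s) ^ 6 := by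
  have h1 := h2 N A (A ∪ J)
  have h3 : (PP N A (A ∪ J)).card * N.choose A.card
      = N.factorial * (A ∪ J).card.choose A.card := h1
  rw [← mul_pow, ← mul_pow]
  refine Nat.pow_le_pow_left ?_ 6
  rw [← hA, h3, ← hJ]
  refine Nat.mul_le_mul_left _ ?_
  exact Nat.choose_le_choose _ (Finset.card_union_le A J)

theorem one_size (h1 : Stmt_CHS) (h2 : Stmt_PRM) (N s : ℕ) (hs : 1 ≤ s) (hs2 : 2 * s ≤ N) :
    N * (∑ q ∈ (powersetCard s (univ : Finset (Fin N))) ×ˢ
      (powersetCard (s / 10) (univ : Finset (Fin N))), (PP N q.1 (q.1 ∪ q.2)).card ^ 6) ≤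
      N.factorial ^ 6 := by
  have hpos : 0 < (N.choose s) ^ 6 := Nat.pow_pos (Nat.choose_pos (by omega))
  refine Nat.le_of_mul_le_mul_right ?_ hpos
  have h3 : (∑ q ∈ (powersetCard s (univ : Finset (Fin N))) ×ˢ
      (powersetCard (s / 10) (univ : Finset (Fin N))), (PP N q.1 (q.1 ∪ q.2)).card ^ 6) *
      (N.choose s) ^ 6 ≤
      (N.choose s * N.choose (s / 10)) * (N.factorial ^ 6 * ((s + s / 10).choose s) ^ 6) := by
    rw [Finset.sum_mul]
    refine (Finset.sum_le_card_nsmul _ _ (N.factorial ^ 6 * ((s + s / 10).choose s) ^ 6) ?_).trans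
      ?_
    · intro q hq
      rw [Finset.mem_product, Finset.mem_powersetCard, Finset.mem_powersetCard] at hq
      exact one_set h2 N s (s / 10) q.1 q.2 hq.1.2 hq.2.2
    · rw [Finset.card_product, Finset.card_powersetCard, Finset.card_powersetCard,
        Finset.card_univ, Fintype.card_fin, smul_eq_mul]
  have h4 := h1 N s hs hs2
  calc N * (∑ q ∈ (powersetCard s (univ : Finset (Fin N))) ×ˢ
      (powersetCard (s / 10) (univ : Finset (Fin N))), (PP N q.1 (q.1 ∪ q.2)).card ^ 6) *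
      (N.choose s) ^ 6
      = N * ((∑ q ∈ (powersetCard s (univ : Finset (Fin N))) ×ˢ
      (powersetCard (s / 10) (univ : Finset (Fin N))), (PP N q.1 (q.1 ∪ q.2)).card ^ 6) *
      (N.choose s) ^ 6) := by ring
    _ ≤ N * ((N.choose s * N.choose (s / 10)) *
        (N.factorial ^ 6 * ((s + s / 10).choose s) ^ 6)) := Nat.mul_le_mul_left _ h3
    _ = (N * (N.choose (s / 10) * ((s + s / 10).choose s) ^ 6)) *
        (N.choose s * N.factorial ^ 6) := by ring
    _ ≤ (N.choose s) ^ 5 * (N.choose s * N.factorial ^ 6) := Nat.mul_le_mul_right _ h4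
    _ = N.factorial ^ 6 * (N.choose s) ^ 6 := by ring

end UNI_

open Finset UNI_ in
theorem uni_proof (h1 : Stmt_CHS) (h2 : Stmt_PRM) : Stmt_UNI := by
  classical
  intro N
  by_contra hcon
  push Not at hcon
  obtain ⟨A0, hA0, hA02, -⟩ := hcon (fun _ => 1)
  have hN : 0 < N := by
    have := hA0.card_pos
    omega
  have hcov : (univ : Finset (Fin 6 → Equiv.Perm (Fin N))) ⊆
      (Finset.Icc 1 (N / 2)).biUnion (fun s =>
        ((powersetCard s (univ : Finset (Fin N))) ×ˢ
          (powersetCard (s / 10) (univ : Finset (Fin N)))).biUnion (fun q =>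
            Fintype.piFinset (fun _ : Fin 6 => PP N q.1 (q.1 ∪ q.2)))) := by
    intro σ _
    obtain ⟨A, hA, hA2, hAc⟩ := hcon σ
    obtain ⟨J, hJ, hσ⟩ := cover N σ A hA2 hAc
    rw [Finset.mem_biUnion]
    refine ⟨A.card, ?_, ?_⟩
    · rw [Finset.mem_Icc]
      have := hA.card_pos
      omega
    · rw [Finset.mem_biUnion]
      refine ⟨(A, J), ?_, ?_⟩
      · rw [Finset.mem_product, Finset.mem_powersetCard, Finset.mem_powersetCard]
        exact ⟨⟨Finset.subset_univ _, rfl⟩, ⟨Finset.subset_univ _, hJ⟩⟩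
      · rw [Fintype.mem_piFinset]
        exact hσ
  have hcard := Finset.card_le_card hcov
  have h3 : (univ : Finset (Fin 6 → Equiv.Perm (Fin N))).card = N.factorial ^ 6 := by
    rw [Finset.card_univ, Fintype.card_fun, Fintype.card_perm, Fintype.card_fin, Fintype.card_fin]
  rw [h3] at hcard
  have h4 : N.factorial ^ 6 ≤ ∑ s ∈ Finset.Icc 1 (N / 2),
      ∑ q ∈ (powersetCard s (univ : Finset (Fin N))) ×ˢ
        (powersetCard (s / 10) (univ : Finset (Fin N))), (PP N q.1 (q.1 ∪ q.2)).card ^ 6 := by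
    refine hcard.trans (Finset.card_biUnion_le.trans (Finset.sum_le_sum fun s _ => ?_))
    refine Finset.card_biUnion_le.trans (Finset.sum_le_sum fun q _ => ?_)
    rw [Fintype.card_piFinset, Finset.prod_const, Finset.card_univ, Fintype.card_fin]
  have h5 : N * N.factorial ^ 6 ≤ (N / 2) * N.factorial ^ 6 := by
    calc N * N.factorial ^ 6 ≤ N * ∑ s ∈ Finset.Icc 1 (N / 2),
        ∑ q ∈ (powersetCard s (univ : Finset (Fin N))) ×ˢ
          (powersetCard (s / 10) (univ : Finset (Fin N))), (PP N q.1 (q.1 ∪ q.2)).card ^ 6 :=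
          Nat.mul_le_mul_left _ h4
      _ = ∑ s ∈ Finset.Icc 1 (N / 2),
        N * ∑ q ∈ (powersetCard s (univ : Finset (Fin N))) ×ˢ
          (powersetCard (s / 10) (univ : Finset (Fin N))), (PP N q.1 (q.1 ∪ q.2)).card ^ 6 := by
          rw [Finset.mul_sum]
      _ ≤ ∑ s ∈ Finset.Icc 1 (N / 2), N.factorial ^ 6 := by
          refine Finset.sum_le_sum fun s hs => ?_
          rw [Finset.mem_Icc] at hs
          exact one_size h1 h2 N s hs.1 (by omega)
      _ = (N / 2) * N.factorial ^ 6 := by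
          rw [Finset.sum_const, Nat.card_Icc, smul_eq_mul]
          simp
  have hf : 0 < N.factorial ^ 6 := Nat.pow_pos (Nat.factorial_pos N)
  have h6 := Nat.le_of_mul_le_mul_right h5 hf
  omega

end Pool.HRG
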