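import Pool.Agent.HRG.Stmts

/-!
# Module XGA: degrees of the graph `XG`, no triangles
-/

namespace Pool.HRG.XGA_

open Pool.HRG

theorem nbF (q m N : ℕ) (σ : ZMod m → Equiv.Perm (Fin N)) (hq : q < m) (v : Fin N) (a : ZMod m) :
    (XG q m N σ).neighborSet (v, a, false) =
      ↑(insert (σ a v, a + (q : ZMod m), true) ((Finset.range q).image
        (fun i : ℕ => ((v, a + (i : ZMod m), true) : Fin N × ZMod m × Bool)))) := by
  have : NeZero m := ⟨by omega⟩
  ext ⟨w, b, s⟩
  simp only [SimpleGraph.mem_neighborSet, XG, xE, Finset.coe_insert, Finset.coe_image,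
    Set.mem_insert_iff, Set.mem_image, Finset.mem_coe, Finset.mem_range, Prod.mk.injEq]
  constructor
  · rintro (⟨_, hs, h | h⟩ | ⟨h, _, _⟩)
    · right
      exact ⟨(b - a).val, h.2, h.1.symm, by rw [ZMod.natCast_zmod_val]; ring, hs.symm⟩
    · left
      exact ⟨h.1, h.2, hs⟩
    · exact absurd h (by decide)
  · rintro (⟨h1, h2, h3⟩ | ⟨i, hi, h1, h2, h3⟩)
    · left
      exact ⟨trivial, h3, Or.inr ⟨h1, h2⟩⟩
    · left
      refine ⟨trivial, h3.symm, Or.inl ⟨h1.symm, ?_⟩⟩
      rw [← h2, add_sub_cancel_left, ZMod.val_natCast_of_lt (by omega)]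
      exact hi

theorem nbT (q m N : ℕ) (σ : ZMod m → Equiv.Perm (Fin N)) (hq : q < m) (u : Fin N) (b : ZMod m) :
    (XG q m N σ).neighborSet (u, b, true) =
      ↑(insert ((σ (b - (q : ZMod m))).symm u, b - (q : ZMod m), false) ((Finset.range q).image
        (fun i : ℕ => ((u, b - (i : ZMod m), false) : Fin N × ZMod m × Bool)))) := by
  have : NeZero m := ⟨by omega⟩
  ext ⟨w, a, s⟩
  simp only [SimpleGraph.mem_neighborSet, XG, xE, Finset.coe_insert, Finset.coe_image,
    Set.mem_insert_iff, Set.mem_image, Finset.mem_coe, Finset.mem_range, Prod.mk.injEq]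
  constructor
  · rintro (⟨h, _, _⟩ | ⟨_, hs, h | h⟩)
    · exact absurd h (by decide)
    · right
      exact ⟨(b - a).val, h.2, h.1, by rw [ZMod.natCast_zmod_val]; ring, hs.symm⟩
    · left
      have h2 : a = b - (q : ZMod m) := by rw [h.2]; ring
      refine ⟨?_, h2, hs⟩
      rw [← h2, h.1, Equiv.symm_apply_apply]
  · rintro (⟨h1, h2, h3⟩ | ⟨i, hi, h1, h2, h3⟩)
    · right
      refine ⟨trivial, h3, Or.inr ⟨?_, ?_⟩⟩
      · rw [h1, h2, Equiv.apply_symm_apply]
      · rw [h2]; ring
    · right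
      refine ⟨trivial, h3.symm, Or.inl ⟨h1, ?_⟩⟩
      rw [← h2, sub_sub_cancel, ZMod.val_natCast_of_lt (by omega)]
      exact hi

theorem cardF (q m N : ℕ) (σ : ZMod m → Equiv.Perm (Fin N)) (hq : q < m) (v : Fin N)
    (a : ZMod m) : ((XG q m N σ).neighborSet (v, a, false)).ncard = q + 1 := by
  have : NeZero m := ⟨by omega⟩
  rw [nbF q m N σ hq v a, Set.ncard_coe_finset, Finset.card_insert_of_notMem,
    Finset.card_image_of_injOn, Finset.card_range]
  · intro i hi j hj hij
    rw [Finset.coe_range, Set.mem_Iio] at hi hj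
    simp only [Prod.mk.injEq, add_right_inj, true_and, and_true] at hij
    have h1 := congrArg ZMod.val hij
    rwa [ZMod.val_natCast_of_lt (by omega), ZMod.val_natCast_of_lt (by omega)] at h1
  · intro h
    rw [Finset.mem_image] at h
    obtain ⟨i, hi, h2⟩ := h
    rw [Finset.mem_range] at hi
    simp only [Prod.mk.injEq, add_right_inj, and_true] at h2
    have h1 := congrArg ZMod.val h2.2
    rw [ZMod.val_natCast_of_lt (by omega), ZMod.val_natCast_of_lt (by omega)] at h1
    omega

theorem cardT (q m N : ℕ) (σ : ZMod m → Equiv.Perm (Fin N)) (hq : q < m) (u : Fin N)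
    (b : ZMod m) : ((XG q m N σ).neighborSet (u, b, true)).ncard = q + 1 := by
  have : NeZero m := ⟨by omega⟩
  rw [nbT q m N σ hq u b, Set.ncard_coe_finset, Finset.card_insert_of_notMem,
    Finset.card_image_of_injOn, Finset.card_range]
  · intro i hi j hj hij
    rw [Finset.coe_range, Set.mem_Iio] at hi hj
    simp only [Prod.mk.injEq, sub_right_inj, true_and, and_true] at hij
    have h1 := congrArg ZMod.val hij
    rwa [ZMod.val_natCast_of_lt (by omega), ZMod.val_natCast_of_lt (by omega)] at h1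
  · intro h
    rw [Finset.mem_image] at h
    obtain ⟨i, hi, h2⟩ := h
    rw [Finset.mem_range] at hi
    simp only [Prod.mk.injEq, sub_right_inj, and_true] at h2
    have h1 := congrArg ZMod.val h2.2
    rw [ZMod.val_natCast_of_lt (by omega), ZMod.val_natCast_of_lt (by omega)] at h1
    omega

theorem side (q m N : ℕ) (σ : ZMod m → Equiv.Perm (Fin N)) (x y : Fin N × ZMod m × Bool)
    (h : (XG q m N σ).Adj x y) : x.2.2 ≠ y.2.2 := by
  rcases h with h | h
  · rw [h.1, h.2.1]
    decide
  · rw [h.1, h.2.1]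
    decide

end Pool.HRG.XGA_

namespace Pool.HRG

theorem xga_proof : Stmt_XGA := by
  intro q m N σ _ hq
  refine ⟨?_, ?_⟩
  · rintro ⟨v, a, s⟩
    cases s
    · exact XGA_.cardF q m N σ hq v a
    · exact XGA_.cardT q m N σ hq v a
  · intro x y z h1 h2 h3
    have e1 := XGA_.side q m N σ x y h1
    have e2 := XGA_.side q m N σ y z h2
    have e3 := XGA_.side q m N σ x z h3
    revert e1 e2 e3
    generalize x.2.2 = a
    generalize y.2.2 = b
    generalize z.2.2 = c
    decide +revert

end Pool.HRG
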