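import Pool.Agent.HRG.Stmts

/-! Module XGB: edge expansion of the graphs `XG`. -/

namespace Pool.HRG

namespace XGB_

variable {q m N : ℕ} {σ : ZMod m → Equiv.Perm (Fin N)}

/-- all members of the cloud of `v` are in `S` -/
def full (S : Set (Fin N × ZMod m × Bool)) : Set (Fin N) := {v | ∀ c, (v, c) ∈ S}

/-- some but not all members of the cloud of `v` are in `S` -/
def mixed (S : Set (Fin N × ZMod m × Bool)) : Set (Fin N) :=
  {v | (∃ c, (v, c) ∈ S) ∧ ∃ c, (v, c) ∉ S}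

theorem adj0 (hq : 2 ≤ q) (v : Fin N) (a : ZMod m) :
    (XG q m N σ).Adj (v, a, false) (v, a, true) :=
  Or.inl ⟨rfl, rfl, Or.inl ⟨rfl, by
    show (a - a).val < q
    rw [sub_self, ZMod.val_zero]; omega⟩⟩

theorem adj1 (hq : 2 ≤ q) (hm : q < m) (v : Fin N) (a : ZMod m) :
    (XG q m N σ).Adj (v, a, false) (v, a + 1, true) :=
  Or.inl ⟨rfl, rfl, Or.inl ⟨rfl, by
    show (a + 1 - a).val < q
    have h1 : (1 : ZMod m).val = 1 := ZMod.val_one'' (by omega)
    rw [add_sub_cancel_left, h1]; omega⟩⟩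

theorem adjs (v : Fin N) (a : ZMod m) :
    (XG q m N σ).Adj (v, a, false) (σ a v, a + (q : ZMod m), true) :=
  Or.inl ⟨rfl, rfl, Or.inr ⟨rfl, rfl⟩⟩

/-- a mixed cloud contains a boundary pair -/
theorem mixed_pair (hq : 2 ≤ q) (hm : q < m) (S : Set (Fin N × ZMod m × Bool)) (v : Fin N)
    (hv : v ∈ mixed S) : ∃ p ∈ pairs (XG q m N σ) S, p.1.1 = v := by
  haveI : NeZero m := ⟨by omega⟩
  by_contra hno
  push Not at hno
  have key : ∀ x y : Fin N × ZMod m × Bool, x.1 = v → y.1 = v → (XG q m N σ).Adj x y →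
      (x ∈ S ↔ y ∈ S) := by
    intro x y hx hy hxy
    constructor
    · intro h
      by_contra h'
      exact hno (x, y) ⟨h, h', hxy⟩ hx
    · intro h
      by_contra h'
      exact hno (y, x) ⟨h, h', hxy.symm⟩ hy
  have h0 : ∀ a : ZMod m, (v, a, false) ∈ S ↔ (v, a, true) ∈ S := fun a =>
    key _ _ rfl rfl (adj0 hq v a)
  have h1 : ∀ a : ZMod m, (v, a, false) ∈ S ↔ (v, a + 1, false) ∈ S := fun a =>
    (key _ _ rfl rfl (adj1 hq hm v a)).trans (h0 (a + 1)).symm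
  have h2 : ∀ k : ℕ, (v, (0 : ZMod m), false) ∈ S ↔ (v, (k : ZMod m), false) ∈ S := by
    intro k
    induction k with
    | zero => simp
    | succ k ih =>
      rw [ih, h1, Nat.cast_succ]
  have h3 : ∀ a : ZMod m, (v, (0 : ZMod m), false) ∈ S ↔ (v, a, false) ∈ S := by
    intro a
    have := h2 a.val
    rwa [ZMod.natCast_zmod_val] at this
  have h4 : ∀ c : ZMod m × Bool, (v, (0 : ZMod m), false) ∈ S ↔ (v, c) ∈ S := by
    rintro ⟨a, b⟩
    cases b
    · exact h3 a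
    · exact (h3 a).trans (h0 a)
  obtain ⟨⟨c, hc⟩, c', hc'⟩ := hv
  exact hc' ((h4 c').1 ((h4 c).2 hc))

end XGB_

open XGB_ in
theorem xgb_proof : Stmt_XGB := by
  intro q m N σ hq hm hA S hS
  classical
  haveI : NeZero m := ⟨by omega⟩
  have hcardc : (Set.univ : Set (ZMod m × Bool)).ncard = 2 * m := by
    rw [Set.ncard_univ, Nat.card_prod, Nat.card_eq_fintype_card, Nat.card_eq_fintype_card,
      ZMod.card, Fintype.card_bool]
    ring
  set A := full S with hAdef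
  set M := mixed S with hMdef
  set P := pairs (XG q m N σ) S with hPdef
  -- size of S
  have hS1 : S.ncard ≤ (A.ncard + M.ncard) * (2 * m) := by
    have h1 : S ⊆ (A ∪ M) ×ˢ (Set.univ : Set (ZMod m × Bool)) := by
      rintro ⟨v, c⟩ hvc
      refine ⟨?_, trivial⟩
      by_cases h : ∀ c, (v, c) ∈ S
      · exact Or.inl h
      · push Not at h
        exact Or.inr ⟨⟨c, hvc⟩, h⟩
    have h2 := Set.ncard_le_ncard h1 (Set.toFinite _)
    rw [Set.ncard_prod, hcardc] at h2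
    exact h2.trans (Nat.mul_le_mul_right _ (Set.ncard_union_le A M))
  have hS2 : A.ncard * (2 * m) ≤ S.ncard := by
    have h1 : A ×ˢ (Set.univ : Set (ZMod m × Bool)) ⊆ S := by
      rintro ⟨v, c⟩ ⟨hv, -⟩
      exact hv c
    have h2 := Set.ncard_le_ncard h1 (Set.toFinite _)
    rwa [Set.ncard_prod, hcardc] at h2
  have hA2 : 2 * A.ncard ≤ N := by
    have h1 : 2 * A.ncard * (2 * m) ≤ N * (2 * m) := by
      calc 2 * A.ncard * (2 * m) = 2 * (A.ncard * (2 * m)) := by ring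
        _ ≤ 2 * S.ncard := Nat.mul_le_mul_left _ hS2
        _ ≤ N * (2 * m) := hS
    exact Nat.le_of_mul_le_mul_right h1 (by omega)
  -- mixed clouds
  have hM : M.ncard ≤ P.ncard := by
    have hch : ∀ v : Fin N, ∃ p : (Fin N × ZMod m × Bool) × (Fin N × ZMod m × Bool),
        v ∈ M → p ∈ P ∧ p.1.1 = v := by
      intro v
      by_cases hv : v ∈ M
      · obtain ⟨p, hp, hp1⟩ := mixed_pair (σ := σ) hq hm S v hv
        exact ⟨p, fun _ => ⟨hp, hp1⟩⟩
      · exact ⟨((v, 0, false), (v, 0, false)), fun h => absurd h hv⟩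
    choose f hf using hch
    refine Set.ncard_le_ncard_of_injOn f (fun v hv => (hf v hv).1) ?_ (Set.toFinite _)
    intro v hv w hw h
    rw [← (hf v hv).2, ← (hf w hw).2, h]
  -- outer edges
  set T : Set (Fin N × ZMod m) := {p | p.1 ∈ A ∧ σ p.2 p.1 ∉ A} with hT
  have hT1 : T.ncard ≤ M.ncard * m + P.ncard := by
    have h1 : T ⊆ {p | p ∈ T ∧ σ p.2 p.1 ∈ M} ∪ {p | p ∈ T ∧ σ p.2 p.1 ∉ M} := by
      intro p hp
      by_cases h : σ p.2 p.1 ∈ M
      · exact Or.inl ⟨hp, h⟩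
      · exact Or.inr ⟨hp, h⟩
    have h2 : {p | p ∈ T ∧ σ p.2 p.1 ∈ M}.ncard ≤ M.ncard * m := by
      have h3 : (M ×ˢ (Set.univ : Set (ZMod m))).ncard = M.ncard * m := by
        rw [Set.ncard_prod, Set.ncard_univ, Nat.card_eq_fintype_card, ZMod.card]
      rw [← h3]
      refine Set.ncard_le_ncard_of_injOn (fun p => (σ p.2 p.1, p.2)) ?_ ?_ (Set.toFinite _)
      · intro p hp
        exact ⟨hp.2, trivial⟩
      · rintro ⟨v, a⟩ _ ⟨w, b⟩ _ h
        simp only [Prod.mk.injEq] at h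
        obtain ⟨h1, rfl⟩ := h
        rw [(σ a).injective h1]
    have h4 : {p | p ∈ T ∧ σ p.2 p.1 ∉ M}.ncard ≤ P.ncard := by
      refine Set.ncard_le_ncard_of_injOn
        (fun p => ((p.1, p.2, false), (σ p.2 p.1, p.2 + (q : ZMod m), true))) ?_ ?_
        (Set.toFinite _)
      · rintro ⟨v, a⟩ ⟨⟨hv, hn⟩, hnm⟩
        refine ⟨hv (a, false), ?_, adjs v a⟩
        intro hmem
        apply hnm
        refine ⟨⟨_, hmem⟩, ?_⟩
        by_contra h
        push Not at h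
        exact hn h
      · rintro ⟨v, a⟩ _ ⟨w, b⟩ _ h
        simp only [Prod.mk.injEq] at h
        exact Prod.ext h.1.1 h.1.2.1
    calc T.ncard ≤ ({p | p ∈ T ∧ σ p.2 p.1 ∈ M} ∪ {p | p ∈ T ∧ σ p.2 p.1 ∉ M}).ncard :=
          Set.ncard_le_ncard h1 (Set.toFinite _)
      _ ≤ _ := Set.ncard_union_le _ _
      _ ≤ M.ncard * m + P.ncard := Nat.add_le_add h2 h4
  have hA3 : A.ncard ≤ 10 * (m + 1) * P.ncard := by
    rcases A.eq_empty_or_nonempty with h | h
    · rw [h, Set.ncard_empty]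
      exact Nat.zero_le _
    · have h1 := hA A h hA2
      have h2 : M.ncard * m ≤ P.ncard * m := Nat.mul_le_mul_right _ hM
      calc A.ncard ≤ 10 * T.ncard := h1
        _ ≤ 10 * (P.ncard * m + P.ncard) := by omega
        _ = 10 * (m + 1) * P.ncard := by ring
  calc S.ncard ≤ (A.ncard + M.ncard) * (2 * m) := hS1
    _ ≤ (10 * (m + 1) * P.ncard + P.ncard) * (2 * m) :=
      Nat.mul_le_mul_right _ (Nat.add_le_add hA3 hM)
    _ = 2 * m * (10 * (m + 1) + 1) * P.ncard := by ring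

end Pool.HRG
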