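import Pool.Agent.HRG.MAIN
import Pool.Agent.HRG.BAS
import Pool.Agent.HRG.FAM
import Pool.Agent.HRG.CLQ
import Pool.Agent.HRG.KN
import Pool.Agent.HRG.CYC
import Pool.Agent.HRG.TWO
import Pool.Agent.HRG.GROW
import Pool.Agent.HRG.HEXA
import Pool.Agent.HRG.HEXB
import Pool.Agent.HRG.HEXC
import Pool.Agent.HRG.TOR
import Pool.Agent.HRG.CHS
import Pool.Agent.HRG.PRM
import Pool.Agent.HRG.UNI
import Pool.Agent.HRG.XGA
import Pool.Agent.HRG.XGB
import Pool.Agent.HRG.XG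
import Pool.Agent.HRG.LGA
import Pool.Agent.HRG.LGB
import Pool.Agent.HRG.NHC
import Pool.Agent.HRG.EXPF
import Pool.Agent.HRG.NEXP
import Pool.Agent.HRG.HEX
import Pool.Agent.HRG.INC

namespace Pool.HRG

theorem xg_final : Stmt_XG := xg_proof bas2_proof (uni_proof chs_proof prm_proof) xga_proof xgb_proof
theorem lga_final : Stmt_LGA := lga_proof clq_proof
theorem expf_final : Stmt_EXPF := expf_proof bas2_proof fam1_proof xg_final lga_final lgb_proof
theorem nexp_final : Stmt_NEXP := nexp_proof bas2_proof fam2_proof two_proof grow_proof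
theorem hex1_final : Stmt_HEX1 := hex1_proof fam1_proof tor_proof
theorem hex2_final : Stmt_HEX2 :=
  hex2_proof bas2_proof fam2_proof hexa_proof hexb_proof hexc_proof grow_proof
theorem kn1_final : Stmt_KN1 := kn1_proof clq_proof
theorem kn2_final : Stmt_KN2 := kn2_proof fam2_proof
theorem cyc_final : Stmt_CYC := cyc_proof fam1_proof
theorem inc_final : Stmt_INC := inc_proof bas3_proof

theorem main_final : MainStatement :=
  main_of inc_final kn1_final kn2_final cyc_final nexp_final expf_final nhc_proof hex1_final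
    hex2_final

theorem aK_pos (n : ℕ) (i : Fin n) : 0 < aK n i := by
  have := i.2
  simp only [aK]
  omega

theorem aL_pos (n : ℕ) (i : Fin n) : 0 < aL n i := by
  have := i.2
  simp only [aL]
  split_ifs <;> omega

/-- six of the seven inclusions are strict for every `n ≥ 2` -/
theorem six_strict (e : Prop) (n : ℕ) (hn : 2 ≤ n) :
    (HRCinf e n ⊂ HRC e n ∧ HRinf e n ⊂ HR e n ∧ HRexp n ⊂ HRinf e n ∧
      HRC e n ⊂ HR e n ∧ HRCinf e n ⊂ HRinf e n ∧ HRCexp e n ⊂ HRexp n) ∧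
    (∃ a : Fin n → ℕ, (∀ i, 0 < a i) ∧ a ∈ HRC e n ∧ a ∉ HRinf e n) ∧
    (∃ a : Fin n → ℕ, (∀ i, 0 < a i) ∧ a ∈ HRexp n ∧ a ∉ HRC e n) := by
  obtain ⟨h1, h2, h3, h4, h5, h6⟩ := (main_final e).1 n hn
  exact ⟨⟨h1, h3, h2, h6, h5, h4⟩,
    ⟨aK n, aK_pos n, kn1_final e n (by omega), kn2_final e n hn⟩,
    ⟨aL n, aL_pos n, expf_final n hn, nhc_proof e n hn⟩⟩

/-- the seventh inclusion is strict for `n = 2` -/
theorem seventh_two (e : Prop) :
    HRCexp e 2 ⊂ HRCinf e 2 ∧ ![6, 2] ∈ HRCinf e 2 ∧ ![6, 2] ∉ HRCexp e 2 :=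
  ⟨(main_final e).2, hex1_final e, hex2_final e⟩

end Pool.HRG
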