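import Pool.Agent.HRG.Stmts

namespace Pool.HRG

/-- assembly of the main theorem from the module statements -/
theorem main_of (hinc : Stmt_INC) (hkn1 : Stmt_KN1) (hkn2 : Stmt_KN2) (hcyc : Stmt_CYC)
    (hnexp : Stmt_NEXP) (hexpf : Stmt_EXPF) (hnhc : Stmt_NHC)
    (hhex1 : Stmt_HEX1) (hhex2 : Stmt_HEX2) : MainStatement := by
  intro e
  refine ⟨?_, ?_⟩
  · intro n hn
    obtain ⟨i1, i2, i3, i4, i5, i6, i7⟩ := hinc e n (by omega)
    have key : ∀ {α : Type} {A B : Set α}, A ⊆ B → ∀ x ∈ B, x ∉ A → A ⊂ B := by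
      intro α A B h x hx hx'
      exact ⟨h, fun h' => hx' (h' hx)⟩
    have hL := hexpf n hn
    have hL' := hnhc e n hn
    refine ⟨key i2 (aK n) (hkn1 e n (by omega)) (fun h => hkn2 e n hn (i6 h)),
      key i3 (aC n) (hcyc e n (by omega)) (hnexp n (by omega)),
      key i4 (aK n) (i7 (hkn1 e n (by omega))) (hkn2 e n hn),
      key i5 (aL n) hL (fun h => hL' (i2 (i1 h))),
      key i6 (aL n) (i3 hL) (fun h => hL' (i2 h)),
      key i7 (aL n) (i4 (i3 hL)) hL'⟩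
  · obtain ⟨i1, -⟩ := hinc e 2 (by omega)
    exact ⟨i1, fun h => hhex2 e (h (hhex1 e))⟩

end Pool.HRG
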