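import Pool.Agent.HRG.Defs

/-!
# Module statements for the squad HRG (MP_21018d_co)
Blueprint: /team-store/HRG.md
-/

namespace Pool.HRG

/-! ### tuples -/

/-- `(n, n-1, …, 1)` -/
def aK (n : ℕ) : Fin n → ℕ := fun i => n - (i : ℕ)
/-- `(2, 0, …, 0)` -/
def aC (n : ℕ) : Fin n → ℕ := fun i => if (i : ℕ) = 0 then 2 else 0
/-- `(2n, n-1, n-2, …, 1)` -/
def aL (n : ℕ) : Fin n → ℕ := fun i => if (i : ℕ) = 0 then 2 * n else n - (i : ℕ)

/-- no triangles -/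
def TriFree {V : Type} (X : SimpleGraph V) : Prop :=
  ∀ x y z, X.Adj x y → X.Adj y z → X.Adj x z → False

/-- the ball of radius `r` around `v` -/
def ball {V : Type} (X : SimpleGraph V) (v : V) : ℕ → Set V
  | 0 => {v}
  | r + 1 => ball X v r ∪ {w | ∃ u ∈ ball X v r, X.Adj u w}

/-- ordered boundary pairs (same number as the boundary edges) -/
def pairs {V : Type} (X : SimpleGraph V) (S : Set V) : Set (V × V) :=
  {p | p.1 ∈ S ∧ p.2 ∉ S ∧ X.Adj p.1 p.2}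

/-! ### module BAS -/

/-- boundary edges = boundary pairs, and a multiplicative form of `h(X) ≥ ε` -/
def Stmt_BAS1 : Prop :=
  ∀ {V : Type} [Finite V] (X : SimpleGraph V) (S : Set V), (bdry X S).ncard = (pairs X S).ncard

/-- it suffices to look at the sets with at most half of the vertices -/
def Stmt_BAS2 : Prop :=
  ∀ {V : Type} [Finite V] (X : SimpleGraph V) (ε : ℝ), 0 < ε →
    (CheegerGE X ε ↔
      ∀ S : Set V, S.Nonempty → 2 * S.ncard ≤ Nat.card V → ε * (S.ncard : ℝ) ≤ ((pairs X S).ncard : ℝ))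

/-- positive Cheeger constant implies connectedness -/
def Stmt_BAS3 : Prop :=
  ∀ {V : Type} [Finite V] (X : SimpleGraph V) (ε : ℝ), 0 < ε → CheegerGE X ε → X.Preconnected

/-! ### module FAM (families) -/

/-- arbitrarily large members give an infinite family of pairwise non-isomorphic members -/
def Stmt_FAM1 : Prop :=
  ∀ P : (∀ {V : Type}, SimpleGraph V → Prop),
    (∀ N : ℕ, ∃ (V : Type) (X : SimpleGraph V), Finite V ∧ N ≤ Nat.card V ∧ P X) → InfMany P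

/-- sizes in an infinite family are unbounded -/
def Stmt_FAM2 : Prop :=
  ∀ (V : ℕ → Type) (X : ∀ k, SimpleGraph (V k)), (∀ k, Finite (V k)) →
    (∀ i j, i ≠ j → IsEmpty (X i ≃g X j)) → ∀ M : ℕ, ∃ k, M < Nat.card (V k)

/-! ### module CLQ (disjoint unions of cliques) -/

/-- if all neighbourhoods are cliques with `k` vertices then `X` is `(k, k-1, …)`-regular -/
def Stmt_CLQ : Prop :=
  ∀ (j k : ℕ), j ≤ k → ∀ {V : Type} [Finite V] [Nonempty V] (X : SimpleGraph V),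
    (∀ v, (X.neighborSet v).ncard = k) →
    (∀ v x y, X.Adj v x → X.Adj v y → x ≠ y → X.Adj x y) →
    IsReg j (fun i : Fin j => k - (i : ℕ)) X

/-! ### module KN (complete graphs) -/

def Stmt_KN1 : Prop := ∀ (e : Prop) (n : ℕ), 1 ≤ n → aK n ∈ HRC e n
def Stmt_KN2 : Prop := ∀ (e : Prop) (n : ℕ), 2 ≤ n → aK n ∉ HRinf e n

/-! ### module CYC (cycles) -/

def Stmt_CYC : Prop := ∀ (e : Prop) (n : ℕ), 1 ≤ n → aC n ∈ HRinf e n

/-! ### module TWO (growth of `2`-regular graphs) -/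

def Stmt_TWO : Prop :=
  ∀ {V : Type} [Finite V] (X : SimpleGraph V), (∀ v, (X.neighborSet v).ncard = 2) →
    ∀ (v : V) (r : ℕ), (ball X v r).ncard ≤ 4 * (r + 1) ^ 2

/-! ### module GROW (expanders of bounded degree have exponential growth) -/

def Stmt_GROW : Prop :=
  ∀ (d : ℕ) (ε : ℝ), 0 < ε → ∃ M : ℕ, ∀ {V : Type} [Finite V] (X : SimpleGraph V),
    (∀ v, (X.neighborSet v).ncard ≤ d) →
    (∀ S : Set V, S.Nonempty → 2 * S.ncard ≤ Nat.card V →
      ε * (S.ncard : ℝ) ≤ ((pairs X S).ncard : ℝ)) →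
    ∀ v : V, (∀ r : ℕ, (ball X v r).ncard ≤ 4 * (r + 1) ^ 2) → Nat.card V ≤ M

/-! ### modules HEXA, HEXB, HEXC (`(6,2)`-connected regular graphs) -/

/-- the local structure of a `(6,2)`-connected regular graph: every neighbourhood is a
connected `2`-regular graph with `6` vertices (a hexagon) -/
def Hex {V : Type} (X : SimpleGraph V) : Prop :=
  ∀ x : V, (X.neighborSet x).ncard = 6 ∧
    (∀ y, X.Adj x y → {z | X.Adj x z ∧ X.Adj y z}.ncard = 2) ∧
    (X.induce (X.neighborSet x)).Preconnected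

def Stmt_HEXA : Prop :=
  ∀ (e : Prop) {V : Type} [Finite V] (X : SimpleGraph V), IsCReg e 2 ![6, 2] X → Hex X

/-- ordered triangles -/
def Flag {V : Type} (X : SimpleGraph V) : Type :=
  {f : V × V × V // X.Adj f.1 f.2.1 ∧ X.Adj f.1 f.2.2 ∧ X.Adj f.2.1 f.2.2}

/-- the two rotations: `R` turns the flag `(x,y,z)` around `x` to `(x,z,y')`, where `y' ≠ y` is the
other common neighbour of `x` and `z`, and `H` turns it around the middle of the edge `xy` to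
`(y,x,z')`, where `z' ≠ z` is the other common neighbour of `x` and `y`.  They satisfy the
relations of the rotation group of the triangular lattice. -/
def Stmt_HEXB : Prop :=
  ∀ {V : Type} [Finite V] (X : SimpleGraph V), Hex X →
    ∃ R H : Equiv.Perm (Flag X),
      R ^ 6 = 1 ∧ H ^ 2 = 1 ∧ (R * H) ^ 3 = 1 ∧
      (∀ f, (R f).1.1 = f.1.1) ∧
      (∀ f, (H f).1.1 = f.1.2.1) ∧
      (∀ (f : Flag X) (w : V), X.Adj f.1.1 w → ∃ k : ℕ, ((R ^ k) f).1.2.1 = w)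

/-- growth of `(6,2)`-connected regular graphs from the flag rotations -/
def Stmt_HEXC : Prop :=
  ∀ {V F : Type} [Finite V] (X : SimpleGraph V) (base nxt : F → V) (R H : Equiv.Perm F),
    R ^ 6 = 1 → H ^ 2 = 1 → (R * H) ^ 3 = 1 →
    (∀ f, base (R f) = base f) → (∀ f, base (H f) = nxt f) →
    (∀ (f : F) (w : V), X.Adj (base f) w → ∃ k : ℕ, nxt ((R ^ k) f) = w) →
    ∀ (f : F) (r : ℕ), (ball X (base f) r).ncard ≤ 4 * (r + 1) ^ 2

/-! ### module TOR (infinitely many `(6,2)`-connected regular graphs) -/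

/-- circulant graph `x ~ y` iff `y - x ∈ {1, 3, 4, -1, -3, -4}` modulo `m` -/
def circ (m : ℕ) : SimpleGraph (ZMod m) :=
  SimpleGraph.fromRel (fun x y => y - x = 1 ∨ y - x = 3 ∨ y - x = 4)

def Stmt_TOR : Prop := ∀ (e : Prop) (m : ℕ), 13 ≤ m → IsCReg e 2 ![6, 2] (circ m)

/-! ### modules CHS, PRM, UNI (random permutations are expanding) -/

def Stmt_CHS : Prop :=
  ∀ N s : ℕ, 1 ≤ s → 2 * s ≤ N →
    N * (N.choose (s / 10) * ((s + s / 10).choose s) ^ 6) ≤ (N.choose s) ^ 5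

def Stmt_PRM : Prop :=
  ∀ (N : ℕ) (A B : Finset (Fin N)),
    (Finset.univ.filter (fun σ : Equiv.Perm (Fin N) => ∀ a ∈ A, σ a ∈ B)).card * N.choose A.card
      = N.factorial * B.card.choose A.card

/-- six permutations of `Fin N` that expand all sets with at most `N/2` elements -/
def Stmt_UNI : Prop :=
  ∀ N : ℕ, ∃ σ : Fin 6 → Equiv.Perm (Fin N), ∀ A : Finset (Fin N), A.Nonempty → 2 * A.card ≤ N →
    A.card < 10 * (Finset.univ.filter (fun p : Fin N × Fin 6 => p.1 ∈ A ∧ σ p.2 p.1 ∉ A)).card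

/-! ### modules XGA, XGB (triangle-free `(q+1)`-regular expanders) -/

/-- directed edge relation from side `false` to side `true` -/
def xE (q m N : ℕ) (σ : ZMod m → Equiv.Perm (Fin N)) (x y : Fin N × ZMod m) : Prop :=
  (y.1 = x.1 ∧ (y.2 - x.2).val < q) ∨ (y.1 = σ x.2 x.1 ∧ y.2 = x.2 + (q : ZMod m))

/-- the graph on `Fin N × ZMod m × Bool`: each `v : Fin N` is replaced by a cloud
`ZMod m × Bool` carrying the bipartite graph `(a, false) ~ (b, true)` iff `(b - a).val < q`, and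
`(v, a, false)` is joined to `(σ_a v, a + q, true)`. -/
def XG (q m N : ℕ) (σ : ZMod m → Equiv.Perm (Fin N)) : SimpleGraph (Fin N × ZMod m × Bool) where
  Adj x y := (x.2.2 = false ∧ y.2.2 = true ∧ xE q m N σ (x.1, x.2.1) (y.1, y.2.1)) ∨
    (x.2.2 = true ∧ y.2.2 = false ∧ xE q m N σ (y.1, y.2.1) (x.1, x.2.1))
  symm := ⟨by
    intro x y h
    rcases h with h | h
    · exact Or.inr ⟨h.2.1, h.1, h.2.2⟩
    · exact Or.inl ⟨h.2.1, h.1, h.2.2⟩⟩
  loopless := ⟨by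
    intro x h
    rcases h with h | h
    · exact absurd (h.1.symm.trans h.2.1) (by decide)
    · exact absurd (h.1.symm.trans h.2.1) (by decide)⟩

def Stmt_XGA : Prop :=
  ∀ (q m N : ℕ) (σ : ZMod m → Equiv.Perm (Fin N)), 2 ≤ q → q < m →
    (∀ v, ((XG q m N σ).neighborSet v).ncard = q + 1) ∧ TriFree (XG q m N σ)

def Stmt_XGB : Prop :=
  ∀ (q m N : ℕ) (σ : ZMod m → Equiv.Perm (Fin N)), 2 ≤ q → q < m →
    (∀ A : Set (Fin N), A.Nonempty → 2 * A.ncard ≤ N →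
      A.ncard ≤ 10 * {p : Fin N × ZMod m | p.1 ∈ A ∧ σ p.2 p.1 ∉ A}.ncard) →
    ∀ S : Set (Fin N × ZMod m × Bool), 2 * S.ncard ≤ N * (2 * m) →
      S.ncard ≤ 2 * m * (10 * (m + 1) + 1) * (pairs (XG q m N σ) S).ncard

/-- triangle-free expanders of every degree `≥ 3` -/
def Stmt_XG : Prop :=
  ∀ q : ℕ, 2 ≤ q → ∃ ε : ℝ, 0 < ε ∧ ∀ N : ℕ, ∃ (V : Type) (X : SimpleGraph V),
    Finite V ∧ N ≤ Nat.card V ∧ (∀ v, (X.neighborSet v).ncard = q + 1) ∧ TriFree X ∧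
    CheegerGE X ε

/-! ### modules LGA, LGB (line graphs) -/

/-- the line graph -/
def LG {V : Type} (X : SimpleGraph V) : SimpleGraph X.edgeSet where
  Adj p q := p ≠ q ∧ ∃ v, v ∈ (p : Sym2 V) ∧ v ∈ (q : Sym2 V)
  symm := ⟨fun _ _ h => ⟨h.1.symm, by obtain ⟨v, h1, h2⟩ := h.2; exact ⟨v, h2, h1⟩⟩⟩
  loopless := ⟨fun _ h => h.1 rfl⟩

def Stmt_LGA : Prop :=
  ∀ n : ℕ, 1 ≤ n → ∀ {V : Type} [Finite V] [Nonempty V] (X : SimpleGraph V),
    (∀ v, (X.neighborSet v).ncard = n + 1) → TriFree X → IsReg n (aL n) (LG X)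

def Stmt_LGB : Prop :=
  ∀ (k : ℕ) (ε : ℝ), 1 ≤ k → 0 < ε → ∀ {V : Type} [Finite V] (X : SimpleGraph V),
    (∀ v, (X.neighborSet v).ncard = k) →
    (∀ S : Set V, S.Nonempty → 2 * S.ncard ≤ Nat.card V →
      ε * (S.ncard : ℝ) ≤ ((pairs X S).ncard : ℝ)) →
    2 * Nat.card X.edgeSet = k * Nat.card V ∧
    ∀ S : Set X.edgeSet, 2 * S.ncard ≤ Nat.card X.edgeSet →
      2 * (S.ncard : ℝ) ≤ ((k : ℝ) ^ 2 / ε + k) * ((pairs (LG X) S).ncard : ℝ)

/-! ### module NHC -/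

def Stmt_NHC : Prop := ∀ (e : Prop) (n : ℕ), 2 ≤ n → aL n ∉ HRC e n

/-! ### module EXPF : the final expander memberships -/

def Stmt_EXPF : Prop := ∀ n : ℕ, 2 ≤ n → aL n ∈ HRexp n

def Stmt_NEXP : Prop := ∀ n : ℕ, 1 ≤ n → aC n ∉ HRexp n

def Stmt_HEX1 : Prop := ∀ e : Prop, ![6, 2] ∈ HRCinf e 2
def Stmt_HEX2 : Prop := ∀ e : Prop, ![6, 2] ∉ HRCexp e 2

/-! ### module INC : the inclusions -/

def Stmt_INC : Prop :=
  ∀ (e : Prop) (n : ℕ), 1 ≤ n →
    HRCexp e n ⊆ HRCinf e n ∧ HRCinf e n ⊆ HRC e n ∧ HRexp n ⊆ HRinf e n ∧ HRinf e n ⊆ HR e n ∧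
    HRCexp e n ⊆ HRexp n ∧ HRCinf e n ⊆ HRinf e n ∧ HRC e n ⊆ HR e n

/-! ### the main theorem -/

def MainStatement : Prop :=
  ∀ e : Prop,
    (∀ n : ℕ, 2 ≤ n →
      HRCinf e n ⊂ HRC e n ∧ HRexp n ⊂ HRinf e n ∧ HRinf e n ⊂ HR e n ∧
      HRCexp e n ⊂ HRexp n ∧ HRCinf e n ⊂ HRinf e n ∧ HRC e n ⊂ HR e n) ∧
    HRCexp e 2 ⊂ HRCinf e 2

end Pool.HRG
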