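import Pool.Agent.HRG.Stmts

/-!
# Module XG: triangle-free expanders of every degree at least three
-/

namespace Pool.HRG

namespace XG_

/-- the permutations attached to the elements of `ZMod m` -/
def sg (m N : ℕ) (τ : Fin 6 → Equiv.Perm (Fin N)) (a : ZMod m) : Equiv.Perm (Fin N) :=
  if h : a.val < 6 then τ ⟨a.val, h⟩ else 1

lemma sg_apply (m N : ℕ) (hm : 6 ≤ m) (τ : Fin 6 → Equiv.Perm (Fin N)) (i : Fin 6) :
    sg m N τ ((i : ℕ) : ZMod m) = τ i := by
  have hi : ((i : ℕ) : ZMod m).val = (i : ℕ) := by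
    rw [ZMod.val_natCast, Nat.mod_eq_of_lt]
    have := i.2
    omega
  unfold sg
  have h6 : ((i : ℕ) : ZMod m).val < 6 := by
    rw [hi]
    exact i.2
  rw [dif_pos h6]
  congr 1
  exact Fin.ext hi

lemma cast_inj (m : ℕ) (hm : 6 ≤ m) (i j : Fin 6) (h : ((i : ℕ) : ZMod m) = ((j : ℕ) : ZMod m)) :
    i = j := by
  have h2 := congrArg ZMod.val h
  rw [ZMod.val_natCast, ZMod.val_natCast, Nat.mod_eq_of_lt, Nat.mod_eq_of_lt] at h2
  · exact Fin.ext h2
  · have := j.2
    omega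
  · have := i.2
    omega

end XG_

open XG_ in
theorem xg_proof (hB : Stmt_BAS2) (hU : Stmt_UNI) (hA : Stmt_XGA) (hX : Stmt_XGB) : Stmt_XG := by
  intro q hq
  obtain ⟨m, hm⟩ : ∃ m, m = q + 6 := ⟨_, rfl⟩
  have hqm : q < m := by omega
  have hm6 : 6 ≤ m := by omega
  have : NeZero m := ⟨by omega⟩
  obtain ⟨K, hK⟩ : ∃ K : ℕ, K = 2 * m * (10 * (m + 1) + 1) := ⟨_, rfl⟩
  have hKpos : 0 < K := by
    rw [hK]
    positivity
  have hKr : (0 : ℝ) < (K : ℝ) := by exact_mod_cast hKpos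
  refine ⟨1 / (K : ℝ), by positivity, ?_⟩
  intro N
  obtain ⟨τ, hτ⟩ := hU (N + 1)
  obtain ⟨hdeg, htri⟩ := hA q m (N + 1) (sg m (N + 1) τ) hq hqm
  have hcard : Nat.card (Fin (N + 1) × ZMod m × Bool) = (N + 1) * (2 * m) := by
    rw [Nat.card_prod, Nat.card_prod, Nat.card_eq_fintype_card, Nat.card_eq_fintype_card,
      Nat.card_eq_fintype_card, Fintype.card_fin, ZMod.card, Fintype.card_bool]
    ring
  refine ⟨Fin (N + 1) × ZMod m × Bool, XG q m (N + 1) (sg m (N + 1) τ), inferInstance, ?_, hdeg,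
    htri, ?_⟩
  · rw [hcard]
    nlinarith
  · refine (hB (XG q m (N + 1) (sg m (N + 1) τ)) (1 / (K : ℝ)) (by positivity)).2 ?_
    intro S _ hS
    have key := hX q m (N + 1) (sg m (N + 1) τ) hq hqm ?_ S (by rw [← hcard]; exact hS)
    · rw [← hK] at key
      have key2 : (S.ncard : ℝ) ≤ (K : ℝ) * ((pairs (XG q m (N + 1) (sg m (N + 1) τ)) S).ncard : ℝ) := by
        exact_mod_cast key
      rw [one_div, inv_mul_le_iff₀ hKr]
      exact key2
    · intro A hAne hA2
      classical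
      have hfin : A.Finite := Set.toFinite A
      have h1 := hτ hfin.toFinset (by
        obtain ⟨a, ha⟩ := hAne
        exact ⟨a, hfin.mem_toFinset.2 ha⟩) (by
        rw [← Set.ncard_eq_toFinset_card A hfin]
        exact hA2)
      rw [← Set.ncard_eq_toFinset_card A hfin] at h1
      have h2 : (Finset.univ.filter (fun p : Fin (N + 1) × Fin 6 =>
          p.1 ∈ hfin.toFinset ∧ τ p.2 p.1 ∉ hfin.toFinset)).card ≤
          {p : Fin (N + 1) × ZMod m | p.1 ∈ A ∧ sg m (N + 1) τ p.2 p.1 ∉ A}.ncard := by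
        rw [← Set.ncard_coe_finset]
        refine Set.ncard_le_ncard_of_injOn (fun p : Fin (N + 1) × Fin 6 => (p.1, ((p.2 : ℕ) : ZMod m)))
          ?_ ?_ (Set.toFinite _)
        · rintro ⟨v, i⟩ hp
          simp only [Finset.coe_filter, Finset.mem_univ, true_and, Set.Finite.mem_toFinset,
            Set.mem_ofPred_eq] at hp
          show v ∈ A ∧ sg m (N + 1) τ ((i : ℕ) : ZMod m) v ∉ A
          rw [sg_apply m (N + 1) hm6 τ i]
          exact hp
        · rintro ⟨v, i⟩ _ ⟨w, j⟩ _ h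
          simp only [Prod.mk.injEq] at h
          exact Prod.ext h.1 (cast_inj m hm6 i j h.2)
      omega

end Pool.HRG
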